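import Pool.Agent.Lib.SymSing.PassagePow
import Pool.Agent.Lib.MP_686cbb_pr.Graph

/-!
# The passage for adjacency matrices of simple graphs
-/

namespace SymSing

open Finset Matrix

variable {n : ℕ}

open Classical in
theorem det_adj_eq_zero_iff (w : Sym2 (Fin n) → Bool) :
    ((SingG.gr w).adjMatrix ℝ).det = 0 ↔ ((0 : Matrix (Fin n) (Fin n) ℤ) +
      (1 : ℤ) • bitMat w).det = 0 := by
  have h1 : (SingG.gr w).adjMatrix ℝ = (bitMat w).map (Int.castRingHom ℝ) := by
    ext i j
    rw [← SingG.ent_eq, Matrix.map_apply, bitMat_apply]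
    unfold SingG.ent
    by_cases h : i = j
    · simp [h]
    · by_cases h' : w s(i, j) = true <;> simp [h, h']
  rw [zero_add, one_smul, h1]
  have h2 : ((bitMat w).map (Int.castRingHom ℝ)).det = (((bitMat w).det : ℤ) : ℝ) := by
    rw [← RingHom.mapMatrix_apply, ← RingHom.map_det]
    rfl
  rw [h2]
  exact Int.cast_eq_zero

open Classical in
theorem card_singSet_eq :
    (singSet n 0 1).card =
      Nat.card {G : SimpleGraph (Fin n) // (G.adjMatrix ℝ).det = 0} * 2 ^ n := by
  rw [← SingG.card_graph (fun G => (G.adjMatrix ℝ).det = 0), Nat.card_eq_fintype_card,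
    Fintype.card_subtype]
  congr 1
  ext w
  rw [mem_singSet, Finset.mem_filter]
  simp only [Finset.mem_univ, true_and]
  exact (det_adj_eq_zero_iff w).symm

open Classical in
/-- `P(det = 0) ≤ φ(q)⁻¹ q^(-2n-1) ∑_lam ∑_(u = lam v) ∏ |cos|` for adjacency matrices. -/
theorem passage_graph (q : ℕ) [NeZero q] :
    (q.totient : ℝ) * q ^ (2 * n + 1) *
      Nat.card {G : SimpleGraph (Fin n) // (G.adjMatrix ℝ).det = 0} ≤
      Nat.card (SimpleGraph (Fin n)) * ∑ lam : ZMod q, linkSum n q 1 lam := by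
  have h1 := passage_main q (0 : Matrix (Fin n) (Fin n) ℤ) (fun _ _ => rfl) 1
  rw [card_singSet_eq] at h1
  have h2 : ((2 : ℝ) ^ Fintype.card (Sym2 (Fin n))) =
      (Nat.card (SimpleGraph (Fin n)) : ℝ) * 2 ^ n := by
    have h3 := SingG.card_all (n := n)
    have h4 : (Fintype.card (Sym2 (Fin n) → Bool) : ℝ) =
        (Nat.card (SimpleGraph (Fin n)) : ℝ) * 2 ^ n := by
      rw [h3]
      push_cast
      rfl
    rw [← h4, Fintype.card_fun]
    simp
  rw [h2] at h1
  push_cast at h1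
  have h5 : (0 : ℝ) < 2 ^ n := by positivity
  refine le_of_mul_le_mul_right ?_ h5
  calc (q.totient : ℝ) * q ^ (2 * n + 1) *
      Nat.card {G : SimpleGraph (Fin n) // (G.adjMatrix ℝ).det = 0} * 2 ^ n
      = (q.totient : ℝ) * q ^ (2 * n + 1) *
        (Nat.card {G : SimpleGraph (Fin n) // (G.adjMatrix ℝ).det = 0} * 2 ^ n) := by ring
    _ ≤ _ := h1
    _ = _ := by ring

open Classical in
/-- The mixed form for adjacency matrices: the term `lam = 0` is a count of kernel vectors. -/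
theorem passage_graph_mixed (q : ℕ) [NeZero q] :
    (q.totient : ℝ) * q ^ (2 * n + 1) *
      Nat.card {G : SimpleGraph (Fin n) // (G.adjMatrix ℝ).det = 0} * 2 ^ n ≤
      (q : ℝ) ^ (2 * n) * ∑ w : Sym2 (Fin n) → Bool, ((kerSet q (bitMat w)).card : ℝ) +
      Nat.card (SimpleGraph (Fin n)) * 2 ^ n *
        ∑ lam ∈ univ.filter (fun lam : ZMod q => lam ≠ 0), linkSum n q 1 lam := by
  have h1 := passage_mixed q (0 : Matrix (Fin n) (Fin n) ℤ) (fun _ _ => rfl) 1
  rw [card_singSet_eq] at h1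
  have h2 : ((2 : ℝ) ^ Fintype.card (Sym2 (Fin n))) =
      (Nat.card (SimpleGraph (Fin n)) : ℝ) * 2 ^ n := by
    have h3 := SingG.card_all (n := n)
    have h4 : (Fintype.card (Sym2 (Fin n) → Bool) : ℝ) =
        (Nat.card (SimpleGraph (Fin n)) : ℝ) * 2 ^ n := by
      rw [h3]
      push_cast
      rfl
    rw [← h4, Fintype.card_fun]
    simp
  rw [h2] at h1
  push_cast at h1
  simp only [zero_add, one_smul] at h1
  calc (q.totient : ℝ) * q ^ (2 * n + 1) *
      Nat.card {G : SimpleGraph (Fin n) // (G.adjMatrix ℝ).det = 0} * 2 ^ n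
      = (q.totient : ℝ) * q ^ (2 * n + 1) *
        (Nat.card {G : SimpleGraph (Fin n) // (G.adjMatrix ℝ).det = 0} * 2 ^ n) := by ring
    _ ≤ _ := h1

end SymSing
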