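import Pool.Agent.Lib.SymSing.PassagePow
import Pool.Agent.Lib.SymSing.PassageGraph

/-!
# The passage restricted to kernel vectors with a property `S`

`S` is a property of vectors modulo `q`, closed under multiplication by units (in the application:
`v` modulo `l` has many nonzero coordinates).
-/

namespace SymSing

open Finset Matrix

variable {n : ℕ}

open Classical in
/-- Weighted form of the Fourier formula. -/
theorem passage_fourier_weight (q : ℕ) [NeZero q] (M : Matrix (Fin n) (Fin n) ℤ)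
    (g : (Fin n → ZMod (q * q)) → ℂ) :
    (q : ℂ) ^ (n + 1) * ∑ v ∈ passSet q M, g v =
      ∑ lam : ZMod q, ∑ z ∈ linkSet n q lam, g z.2 * ZMod.stdAddChar (bil M z.1 z.2) := by
  have h1 : ∀ lam : ZMod q, ∑ z ∈ linkSet n q lam, g z.2 * ZMod.stdAddChar (bil M z.1 z.2) =
      ∑ v ∈ univ.filter (fun v : Fin n → ZMod (q * q) => PrimVec (fun i => red q (v i))),
        g v * (ZMod.stdAddChar (((lam.val : ℕ) : ZMod (q * q)) * bil M v v) *
          if ∀ i, red q (∑ j, (M i j : ZMod (q * q)) * v j) = 0 then (q : ℂ) ^ n else 0) := by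
    intro lam
    rw [sum_linkSet_eq lam (fun u v => g v * ZMod.stdAddChar (bil M u v))]
    apply Finset.sum_congr rfl
    intro v _
    rw [← Finset.mul_sum]
    congr 1
    simp only [bil_eq]
    rw [sum_class_char (fun i => ((lam.val : ℕ) : ZMod (q * q)) * v i)
      (fun i => ∑ j, (M i j : ZMod (q * q)) * v j)]
    congr 2
    rw [Finset.mul_sum]
    exact Finset.sum_congr rfl fun i _ => by ring
  rw [Finset.sum_congr rfl fun lam _ => h1 lam, Finset.sum_comm]
  have h2 : ∀ v : Fin n → ZMod (q * q), ∑ lam : ZMod q,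
      g v * (ZMod.stdAddChar (((lam.val : ℕ) : ZMod (q * q)) * bil M v v) *
        (if ∀ i, red q (∑ j, (M i j : ZMod (q * q)) * v j) = 0 then (q : ℂ) ^ n else 0)) =
      if (∀ i, ∑ j, (M i j : ZMod q) * red q (v j) = 0) ∧
        ∑ i, ∑ j, v i * (M i j : ZMod (q * q)) * v j = 0 then g v * (q : ℂ) ^ (n + 1) else 0 := by
    intro v
    rw [← Finset.mul_sum]
    have e0 : ∀ i, red q (∑ j, (M i j : ZMod (q * q)) * v j) =
        ∑ j, (M i j : ZMod q) * red q (v j) := by
      intro i
      rw [map_sum]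
      exact Finset.sum_congr rfl fun j _ => by rw [map_mul, red_intCast]
    by_cases hA : ∀ i, ∑ j, (M i j : ZMod q) * red q (v j) = 0
    · have hA' : ∀ i, red q (∑ j, (M i j : ZMod (q * q)) * v j) = 0 := fun i => by
        rw [e0 i, hA i]
      have hred : red q (bil M v v) = 0 := by
        rw [bil_eq, map_sum]
        apply Finset.sum_eq_zero
        intro i _
        rw [map_mul, hA' i, mul_zero]
      obtain ⟨t, ht⟩ := exists_mul_of_red_eq_zero hred
      have e1 : ∀ lam : ZMod q, ZMod.stdAddChar (((lam.val : ℕ) : ZMod (q * q)) * bil M v v) =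
          ZMod.stdAddChar (lam * t) := by
        intro lam
        have e2 : ((lam.val : ℕ) : ZMod (q * q)) * bil M v v =
            (q : ZMod (q * q)) * (((lam.val : ℕ) : ZMod (q * q)) *
              ((t.val : ℕ) : ZMod (q * q))) := by
          rw [ht]
          ring
        rw [e2, char_q_mul, map_mul, red_natCast, red_natCast, ZMod.natCast_zmod_val,
          ZMod.natCast_zmod_val]
      rw [Finset.sum_congr rfl fun lam _ => by rw [e1 lam, if_pos hA'], ← Finset.sum_mul,
        sum_stdAddChar_mul]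
      have e3 : (∑ i, ∑ j, v i * (M i j : ZMod (q * q)) * v j = 0) ↔ t = 0 := by
        have e4 : (∑ i, ∑ j, v i * (M i j : ZMod (q * q)) * v j) = bil M v v := rfl
        rw [e4, ht, mul_val_eq_zero_iff, red_natCast, ZMod.natCast_zmod_val]
      by_cases h3 : t = 0
      · rw [if_pos h3, if_pos ⟨hA, e3.2 h3⟩]
        ring
      · rw [if_neg h3, if_neg (fun h4 => h3 (e3.1 h4.2)), zero_mul, mul_zero]
    · have hA' : ¬ ∀ i, red q (∑ j, (M i j : ZMod (q * q)) * v j) = 0 := fun h => hA fun i => by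
        rw [← e0 i, h i]
      have hB : ¬ ((∀ i, ∑ j, (M i j : ZMod q) * red q (v j) = 0) ∧
        ∑ i, ∑ j, v i * (M i j : ZMod (q * q)) * v j = 0) := fun h => hA h.1
      rw [if_neg hB, Finset.sum_eq_zero, mul_zero]
      intro lam _
      rw [if_neg hA', mul_zero]
  rw [Finset.sum_congr rfl fun v _ => h2 v, ← Finset.sum_filter, Finset.filter_filter,
    ← Finset.sum_mul, mul_comm]
  congr 1

open Classical in
/-- Bits for which `D + s B` is singular and all primitive integral kernel vectors have `S`. -/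
noncomputable def singSetS (n q : ℕ) (S : (Fin n → ZMod q) → Prop)
    (D : Matrix (Fin n) (Fin n) ℤ) (s : ℤ) : Finset (Sym2 (Fin n) → Bool) :=
  univ.filter fun w => (D + s • bitMat w).det = 0 ∧ ∀ x : Fin n → ℤ,
    (∃ y : Fin n → ℤ, ∑ i, y i * x i = 1) → (D + s • bitMat w) *ᵥ x = 0 →
      S fun i => ((x i : ℤ) : ZMod q)

theorem mem_singSetS {q : ℕ} {S : (Fin n → ZMod q) → Prop} {D : Matrix (Fin n) (Fin n) ℤ}
    {s : ℤ} {w : Sym2 (Fin n) → Bool} : w ∈ singSetS n q S D s ↔
      (D + s • bitMat w).det = 0 ∧ ∀ x : Fin n → ℤ,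
    (∃ y : Fin n → ℤ, ∑ i, y i * x i = 1) → (D + s • bitMat w) *ᵥ x = 0 →
      S fun i => ((x i : ℤ) : ZMod q) := by
  classical
  unfold singSetS
  simp only [Finset.mem_filter, Finset.mem_univ, true_and]

open Classical in
/-- Vectors of `passSet` with `S`. -/
noncomputable def passSetS (q : ℕ) [NeZero q] (S : (Fin n → ZMod q) → Prop)
    (M : Matrix (Fin n) (Fin n) ℤ) : Finset (Fin n → ZMod (q * q)) :=
  (passSet q M).filter fun v => S fun i => red q (v i)

open Classical in
/-- A singular symmetric integer matrix all whose primitive kernel vectors have `S` gives at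
least `φ(q) q ^ n` vectors in `passSetS`. -/
theorem passage_card_leS (q : ℕ) [NeZero q] (S : (Fin n → ZMod q) → Prop)
    (hS : ∀ (c : (ZMod q)ˣ) (v : Fin n → ZMod q), S v → S fun i => (c : ZMod q) * v i)
    (M : Matrix (Fin n) (Fin n) ℤ) (hsym : ∀ i j, M i j = M j i) (hM : M.det = 0)
    (hSM : ∀ x : Fin n → ℤ, (∃ y : Fin n → ℤ, ∑ i, y i * x i = 1) → M *ᵥ x = 0 →
      S fun i => ((x i : ℤ) : ZMod q)) :
    q.totient * q ^ n ≤ (passSetS q S M).card := by
  obtain ⟨x, y, hx, hy⟩ := exists_prim_kernel M hM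
  have hSx := hSM x ⟨y, hy⟩ hx
  have hxi : ∀ i, ∑ j, M i j * x j = 0 := fun i => by
    have := congrFun hx i
    simpa [Matrix.mulVec, dotProduct] using this
  have hxj : ∀ j, ∑ i, x i * M i j = 0 := fun j => by
    rw [← hxi j]
    apply Finset.sum_congr rfl
    intro i _
    rw [hsym i j, mul_comm]
  let F : (ZMod q)ˣ × (Fin n → ZMod q) → (Fin n → ZMod (q * q)) := fun cs i =>
    (((cs.1 : ZMod q).val : ℕ) : ZMod (q * q)) * (x i : ZMod (q * q)) +
      (q : ZMod (q * q)) * (((cs.2 i).val : ℕ) : ZMod (q * q))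
  have hq0 : ((q : ℕ) : ZMod q) = 0 := ZMod.natCast_self q
  have hredF : ∀ cs i, red q (F cs i) = (cs.1 : ZMod q) * (x i : ZMod q) := by
    intro cs i
    simp only [F]
    rw [map_add, map_mul, map_mul, red_natCast, red_natCast, red_intCast, red_natCast, hq0,
      zero_mul, add_zero, ZMod.natCast_zmod_val]
  have hyq : ∑ i, (y i : ZMod q) * (x i : ZMod q) = 1 := by
    have := congrArg (fun t : ℤ => (t : ZMod q)) hy
    simpa using this
  have hinj : Function.Injective F := by
    intro a b hab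
    have h1 : (a.1 : ZMod q) = (b.1 : ZMod q) := by
      have h2 : ∀ i, (a.1 : ZMod q) * (x i : ZMod q) = (b.1 : ZMod q) * (x i : ZMod q) := by
        intro i
        rw [← hredF a i, ← hredF b i, hab]
      calc (a.1 : ZMod q) = (a.1 : ZMod q) * ∑ i, (y i : ZMod q) * (x i : ZMod q) := by
            rw [hyq, mul_one]
        _ = ∑ i, (y i : ZMod q) * ((a.1 : ZMod q) * (x i : ZMod q)) := by
            rw [Finset.mul_sum]
            exact Finset.sum_congr rfl fun i _ => by ring
        _ = ∑ i, (y i : ZMod q) * ((b.1 : ZMod q) * (x i : ZMod q)) := by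
            exact Finset.sum_congr rfl fun i _ => by rw [h2 i]
        _ = (b.1 : ZMod q) * ∑ i, (y i : ZMod q) * (x i : ZMod q) := by
            rw [Finset.mul_sum]
            exact Finset.sum_congr rfl fun i _ => by ring
        _ = (b.1 : ZMod q) := by rw [hyq, mul_one]
    have h1' : a.1 = b.1 := Units.ext h1
    refine Prod.ext h1' ?_
    funext i
    have h2 := congrFun hab i
    simp only [F] at h2
    rw [h1] at h2
    exact q_mul_val_inj (add_left_cancel h2)
  have hqq : (q : ZMod (q * q)) * (q : ZMod (q * q)) = 0 := by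
    rw [← Nat.cast_mul]
    exact ZMod.natCast_self _
  have hmem : ∀ cs, F cs ∈ passSetS q S M := by
    intro cs
    unfold passSetS
    rw [Finset.mem_filter, mem_passSet]
    refine ⟨⟨?_, ?_, ?_⟩, ?_⟩
    · refine ⟨fun i => ((cs.1⁻¹ : (ZMod q)ˣ) : ZMod q) * (y i : ZMod q), ?_⟩
      calc ∑ i, ((cs.1⁻¹ : (ZMod q)ˣ) : ZMod q) * (y i : ZMod q) * red q (F cs i)
          = ∑ i, (((cs.1⁻¹ : (ZMod q)ˣ) : ZMod q) * (cs.1 : ZMod q)) *
              ((y i : ZMod q) * (x i : ZMod q)) := by
            exact Finset.sum_congr rfl fun i _ => by rw [hredF]; ring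
        _ = 1 := by
            rw [← Finset.mul_sum, hyq, mul_one]
            exact Units.inv_mul _
    · intro i
      have h1 : ((∑ j, M i j * x j : ℤ) : ZMod q) = 0 := by rw [hxi i]; simp
      calc ∑ j, (M i j : ZMod q) * red q (F cs j)
          = ∑ j, (cs.1 : ZMod q) * ((M i j : ZMod q) * (x j : ZMod q)) := by
            exact Finset.sum_congr rfl fun j _ => by rw [hredF]; ring
        _ = (cs.1 : ZMod q) * ((∑ j, M i j * x j : ℤ) : ZMod q) := by
            rw [← Finset.mul_sum]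
            congr 1
            push_cast
            rfl
        _ = 0 := by rw [h1, mul_zero]
    · obtain ⟨c, hc⟩ : ∃ c : ZMod (q * q), c = (((cs.1 : ZMod q).val : ℕ) : ZMod (q * q)) :=
        ⟨_, rfl⟩
      obtain ⟨w, hw⟩ : ∃ w : Fin n → ZMod (q * q),
          w = fun i => (((cs.2 i).val : ℕ) : ZMod (q * q)) := ⟨_, rfl⟩
      have hF : ∀ i, F cs i = c * (x i : ZMod (q * q)) + (q : ZMod (q * q)) * w i := by
        intro i
        simp only [F, hc, hw]
      have e1 : ∀ i, ∑ j, (M i j : ZMod (q * q)) * (x j : ZMod (q * q)) = 0 := by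
        intro i
        have h1 : ((∑ j, M i j * x j : ℤ) : ZMod (q * q)) = 0 := by rw [hxi i]; simp
        rw [← h1]
        push_cast
        rfl
      have e2 : ∀ j, ∑ i, (x i : ZMod (q * q)) * (M i j : ZMod (q * q)) = 0 := by
        intro j
        have h1 : ((∑ i, x i * M i j : ℤ) : ZMod (q * q)) = 0 := by rw [hxj j]; simp
        rw [← h1]
        push_cast
        rfl
      have s1 : ∑ i, ∑ j, F cs i * (M i j : ZMod (q * q)) * F cs j =
          ∑ i, F cs i * c * ∑ j, (M i j : ZMod (q * q)) * (x j : ZMod (q * q)) +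
          (q : ZMod (q * q)) * c * ∑ j, w j *
            ∑ i, (x i : ZMod (q * q)) * (M i j : ZMod (q * q)) +
          (q : ZMod (q * q)) * (q : ZMod (q * q)) *
            ∑ i, ∑ j, w i * (M i j : ZMod (q * q)) * w j := by
        have t1 : ∑ j, w j * ∑ i, (x i : ZMod (q * q)) * (M i j : ZMod (q * q)) =
            ∑ i, ∑ j, w j * ((x i : ZMod (q * q)) * (M i j : ZMod (q * q))) := by
          rw [Finset.sum_comm]
          exact Finset.sum_congr rfl fun j _ => by rw [Finset.mul_sum]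
        rw [t1]
        simp only [Finset.mul_sum]
        rw [← Finset.sum_add_distrib, ← Finset.sum_add_distrib]
        apply Finset.sum_congr rfl
        intro i _
        rw [← Finset.sum_add_distrib, ← Finset.sum_add_distrib]
        apply Finset.sum_congr rfl
        intro j _
        rw [hF i, hF j]
        ring
      rw [s1, hqq, zero_mul, add_zero]
      have s2 : ∑ i, F cs i * c * ∑ j, (M i j : ZMod (q * q)) * (x j : ZMod (q * q)) = 0 := by
        apply Finset.sum_eq_zero
        intro i _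
        rw [e1 i, mul_zero]
      have s3 : ∑ j, w j * ∑ i, (x i : ZMod (q * q)) * (M i j : ZMod (q * q)) = 0 := by
        apply Finset.sum_eq_zero
        intro j _
        rw [e2 j, mul_zero]
      rw [s2, s3, mul_zero, add_zero]
    · have h1 : (fun i => red q (F cs i)) = fun i => (cs.1 : ZMod q) * ((x i : ℤ) : ZMod q) :=
        funext fun i => hredF cs i
      rw [h1]
      exact hS cs.1 _ hSx
  have hcard : (Finset.univ.image F).card = q.totient * q ^ n := by
    rw [Finset.card_image_of_injective _ hinj, Finset.card_univ, Fintype.card_prod,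
      ZMod.card_units_eq_totient]
    simp [ZMod.card]
  rw [← hcard]
  apply Finset.card_le_card
  intro v hv
  obtain ⟨cs, _, rfl⟩ := Finset.mem_image.1 hv
  exact hmem cs

open Classical in
/-- The sum over the linked pairs with property `S`. -/
noncomputable def linkSumS (n q : ℕ) [NeZero q] (S : (Fin n → ZMod q) → Prop) (s : ℤ)
    (lam : ZMod q) : ℝ :=
  ∑ z ∈ (linkSet n q lam).filter (fun z => S fun i => red q (z.2 i)),
    ∏ p ∈ ltPairs n, cosZ ((s : ZMod (q * q)) * pairB z.1 z.2 p.1 p.2)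

theorem linkSumS_nonneg (q : ℕ) [NeZero q] (S : (Fin n → ZMod q) → Prop) (s : ℤ)
    (lam : ZMod q) : 0 ≤ linkSumS n q S s lam :=
  Finset.sum_nonneg fun _ _ => Finset.prod_nonneg fun _ _ => cosZ_nonneg _

open Classical in
/-- Main inequality restricted to `S`. -/
theorem passage_mainS (q : ℕ) [NeZero q] (S : (Fin n → ZMod q) → Prop)
    (hS : ∀ (c : (ZMod q)ˣ) (v : Fin n → ZMod q), S v → S fun i => (c : ZMod q) * v i)
    (D : Matrix (Fin n) (Fin n) ℤ) (hD : ∀ i j, D i j = D j i) (s : ℤ) :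
    (q.totient : ℝ) * q ^ (2 * n + 1) * (singSetS n q S D s).card ≤
      (2 : ℝ) ^ Fintype.card (Sym2 (Fin n)) * ∑ lam : ZMod q, linkSumS n q S s lam := by
  have hF : ∀ w : Sym2 (Fin n) → Bool,
      ((q : ℂ) ^ (n + 1) * (passSetS q S (D + s • bitMat w)).card) =
      ∑ lam : ZMod q, ∑ z ∈ (linkSet n q lam).filter (fun z => S fun i => red q (z.2 i)),
        ZMod.stdAddChar (bil (D + s • bitMat w) z.1 z.2) := by
    intro w
    have h1 := passage_fourier_weight q (D + s • bitMat w)
      (fun v => if S (fun i => red q (v i)) then (1 : ℂ) else 0)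
    rw [← Finset.sum_filter, Finset.sum_const, nsmul_eq_mul, mul_one] at h1
    unfold passSetS
    rw [h1]
    apply Finset.sum_congr rfl
    intro lam _
    rw [Finset.sum_filter]
    apply Finset.sum_congr rfl
    intro z _
    by_cases h : S fun i => red q (z.2 i)
    · simp [h]
    · simp [h]
  have hN : (q : ℝ) ^ (n + 1) * ∑ w : Sym2 (Fin n) → Bool,
      ((passSetS q S (D + s • bitMat w)).card : ℝ) ≤
      (2 : ℝ) ^ Fintype.card (Sym2 (Fin n)) * ∑ lam : ZMod q, linkSumS n q S s lam := by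
    have h1 : ‖(q : ℂ) ^ (n + 1) * ∑ w : Sym2 (Fin n) → Bool,
        ((passSetS q S (D + s • bitMat w)).card : ℂ)‖ = (q : ℝ) ^ (n + 1) *
          ∑ w : Sym2 (Fin n) → Bool, ((passSetS q S (D + s • bitMat w)).card : ℝ) := by
      rw [← Nat.cast_sum, ← Nat.cast_pow, ← Nat.cast_mul, Complex.norm_natCast]
      push_cast
      rfl
    rw [← h1, Finset.mul_sum, Finset.sum_congr rfl fun w _ => hF w, Finset.sum_comm,
      Finset.mul_sum]
    refine (norm_sum_le _ _).trans (Finset.sum_le_sum fun lam _ => ?_)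
    unfold linkSumS
    rw [Finset.sum_comm, Finset.mul_sum]
    refine (norm_sum_le _ _).trans (Finset.sum_le_sum fun z _ => ?_)
    rw [norm_sum_bits]
  refine le_trans ?_ hN
  have h3 : q.totient * q ^ n * (singSetS n q S D s).card ≤
      ∑ w : Sym2 (Fin n) → Bool, (passSetS q S (D + s • bitMat w)).card := by
    calc q.totient * q ^ n * (singSetS n q S D s).card
        = ∑ w ∈ singSetS n q S D s, q.totient * q ^ n := by
          rw [Finset.sum_const, smul_eq_mul, mul_comm]
      _ ≤ ∑ w ∈ singSetS n q S D s, (passSetS q S (D + s • bitMat w)).card := by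
          apply Finset.sum_le_sum
          intro w hw
          have hw' := mem_singSetS.1 hw
          refine passage_card_leS q S hS _ ?_ hw'.1 hw'.2
          intro i j
          rw [Matrix.add_apply, Matrix.add_apply, Matrix.smul_apply, Matrix.smul_apply,
            hD i j, bitMat_symm w i j]
      _ ≤ ∑ w : Sym2 (Fin n) → Bool, (passSetS q S (D + s • bitMat w)).card :=
          Finset.sum_le_sum_of_subset (Finset.subset_univ _)
  have h4 : ((q.totient * q ^ n * (singSetS n q S D s).card : ℕ) : ℝ) ≤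
      ((∑ w : Sym2 (Fin n) → Bool, (passSetS q S (D + s • bitMat w)).card : ℕ) : ℝ) := by
    exact_mod_cast h3
  push_cast at h4
  calc (q.totient : ℝ) * q ^ (2 * n + 1) * (singSetS n q S D s).card
      = (q : ℝ) ^ (n + 1) * ((q.totient : ℝ) * q ^ n * (singSetS n q S D s).card) := by ring
    _ ≤ _ := mul_le_mul_of_nonneg_left h4 (by positivity)

/-! ### A property of residues modulo `l`, where `q = l ^ K` -/

/-- Reduction of `q`-vectors modulo `l`, `q = l ^ K`. -/
def redl (l K : ℕ) (hK : K ≠ 0) : ZMod (l ^ K) →+* ZMod l :=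
  ZMod.castHom (dvd_pow_self l hK) (ZMod l)

theorem redl_intCast (l K : ℕ) (hK : K ≠ 0) (m : ℤ) : redl l K hK (m : ZMod (l ^ K)) =
    (m : ZMod l) := by
  unfold redl
  exact map_intCast _ m

open Classical in
/-- Bits for which some nonzero kernel vector modulo `l` does not have `S`. -/
noncomputable def badSetS (n l : ℕ) (S : (Fin n → ZMod l) → Prop)
    (D : Matrix (Fin n) (Fin n) ℤ) (s : ℤ) : Finset (Sym2 (Fin n) → Bool) :=
  univ.filter fun w => ∃ v : Fin n → ZMod l, v ≠ 0 ∧ ¬ S v ∧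
    ∀ i, ∑ j, (((D + s • bitMat w) i j : ℤ) : ZMod l) * v j = 0

theorem mem_badSetS {l : ℕ} {S : (Fin n → ZMod l) → Prop} {D : Matrix (Fin n) (Fin n) ℤ}
    {s : ℤ} {w : Sym2 (Fin n) → Bool} : w ∈ badSetS n l S D s ↔
      ∃ v : Fin n → ZMod l, v ≠ 0 ∧ ¬ S v ∧
        ∀ i, ∑ j, (((D + s • bitMat w) i j : ℤ) : ZMod l) * v j = 0 := by
  classical
  unfold badSetS
  simp only [Finset.mem_filter, Finset.mem_univ, true_and]

theorem singSet_subset {l K : ℕ} (hl : l.Prime) (hK : K ≠ 0) (S : (Fin n → ZMod l) → Prop)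
    (D : Matrix (Fin n) (Fin n) ℤ) (s : ℤ) {w : Sym2 (Fin n) → Bool} (hw : w ∈ singSet n D s)
    (hw' : w ∉ badSetS n l S D s) :
    w ∈ singSetS n (l ^ K) (fun v => S fun i => redl l K hK (v i)) D s := by
  have : Fact l.Prime := ⟨hl⟩
  rw [mem_singSet] at hw
  rw [mem_badSetS] at hw'
  rw [mem_singSetS]
  refine ⟨hw, fun x hx hMx => ?_⟩
  by_contra hcon
  apply hw'
  have e1 : (fun i => redl l K hK (((x i : ℤ)) : ZMod (l ^ K))) = fun i => ((x i : ℤ) : ZMod l) :=
    funext fun i => redl_intCast l K hK (x i)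
  refine ⟨fun i => ((x i : ℤ) : ZMod l), ?_, ?_, ?_⟩
  · intro h0
    obtain ⟨y, hy⟩ := hx
    have h1 := congrArg (fun t : ℤ => (t : ZMod l)) hy
    simp only [Int.cast_sum, Int.cast_mul, Int.cast_one] at h1
    rw [Finset.sum_eq_zero fun i _ => by rw [congrFun h0 i]; simp] at h1
    exact zero_ne_one h1
  · rw [← e1]
    exact hcon
  · intro i
    have h1 := congrFun hMx i
    have h2 : ∑ j, (D + s • bitMat w) i j * x j = 0 := by
      simpa [Matrix.mulVec, dotProduct] using h1
    have h3 := congrArg (fun t : ℤ => (t : ZMod l)) h2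
    simp only [Int.cast_sum, Int.cast_mul, Int.cast_zero] at h3
    exact h3

open Classical in
/-- Main inequality for a property of residues modulo the prime `l`, `q = l ^ K`. -/
theorem passage_prime (l K : ℕ) [NeZero (l ^ K)] (hl : l.Prime) (hK : K ≠ 0)
    (S : (Fin n → ZMod l) → Prop)
    (hS : ∀ (c : (ZMod l)ˣ) (v : Fin n → ZMod l), S v → S fun i => (c : ZMod l) * v i)
    (D : Matrix (Fin n) (Fin n) ℤ) (hD : ∀ i j, D i j = D j i) (s : ℤ) :
    ((l ^ K).totient : ℝ) * ((l ^ K : ℕ) : ℝ) ^ (2 * n + 1) * (singSet n D s).card ≤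
      ((l ^ K).totient : ℝ) * ((l ^ K : ℕ) : ℝ) ^ (2 * n + 1) * (badSetS n l S D s).card +
      (2 : ℝ) ^ Fintype.card (Sym2 (Fin n)) *
        ∑ lam : ZMod (l ^ K), linkSumS n (l ^ K) (fun v => S fun i => redl l K hK (v i)) s lam := by
  have h1 := passage_mainS (n := n) (l ^ K) (fun v => S fun i => redl l K hK (v i)) (by
    intro c v hv
    have h2 := hS (Units.map (redl l K hK).toMonoidHom c) _ hv
    have h3 : (fun i => redl l K hK ((c : ZMod (l ^ K)) * v i)) = fun i =>
        ((Units.map (redl l K hK).toMonoidHom c : (ZMod l)ˣ) : ZMod l) *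
          redl l K hK (v i) := by
      funext i
      rw [map_mul]
      rfl
    rw [h3]
    exact h2) D hD s
  have h2 : (singSet n D s).card ≤ (badSetS n l S D s).card +
      (singSetS n (l ^ K) (fun v => S fun i => redl l K hK (v i)) D s).card := by
    refine (Finset.card_le_card ?_).trans (Finset.card_union_le _ _)
    intro w hw
    rw [Finset.mem_union]
    by_cases h : w ∈ badSetS n l S D s
    · exact Or.inl h
    · exact Or.inr (singSet_subset hl hK S D s hw h)
  have h3 : ((singSet n D s).card : ℝ) ≤ (badSetS n l S D s).card +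
      (singSetS n (l ^ K) (fun v => S fun i => redl l K hK (v i)) D s).card := by
    exact_mod_cast h2
  calc ((l ^ K).totient : ℝ) * ((l ^ K : ℕ) : ℝ) ^ (2 * n + 1) * (singSet n D s).card
      ≤ ((l ^ K).totient : ℝ) * ((l ^ K : ℕ) : ℝ) ^ (2 * n + 1) *
        ((badSetS n l S D s).card +
          (singSetS n (l ^ K) (fun v => S fun i => redl l K hK (v i)) D s).card) :=
        mul_le_mul_of_nonneg_left h3 (by positivity)
    _ = ((l ^ K).totient : ℝ) * ((l ^ K : ℕ) : ℝ) ^ (2 * n + 1) * (badSetS n l S D s).card +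
        ((l ^ K).totient : ℝ) * ((l ^ K : ℕ) : ℝ) ^ (2 * n + 1) *
          (singSetS n (l ^ K) (fun v => S fun i => redl l K hK (v i)) D s).card := by ring
    _ ≤ _ := by
        gcongr

/-! ### Adjacency matrices -/

open Classical in
theorem card_badSetS_eq (l : ℕ) (S : (Fin n → ZMod l) → Prop) :
    (badSetS n l S 0 1).card =
      Nat.card {G : SimpleGraph (Fin n) // ∃ v : Fin n → ZMod l, v ≠ 0 ∧ ¬ S v ∧
        (G.adjMatrix (ZMod l)) *ᵥ v = 0} * 2 ^ n := by
  rw [← SingG.card_graph (fun G => ∃ v : Fin n → ZMod l, v ≠ 0 ∧ ¬ S v ∧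
    (G.adjMatrix (ZMod l)) *ᵥ v = 0), Nat.card_eq_fintype_card, Fintype.card_subtype]
  congr 1
  ext w
  rw [mem_badSetS, Finset.mem_filter]
  simp only [Finset.mem_univ, true_and]
  have h1 : ∀ i j, ((((0 : Matrix (Fin n) (Fin n) ℤ) + (1 : ℤ) • bitMat w) i j : ℤ) : ZMod l) =
      (SingG.gr w).adjMatrix (ZMod l) i j := by
    intro i j
    rw [zero_add, one_smul, bitMat_apply, SimpleGraph.adjMatrix_apply, SingG.gr_adj]
    by_cases h : i = j
    · simp [h]
    · by_cases h' : w s(i, j) = true <;> simp [h, h']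
  have h2 : ∀ v : Fin n → ZMod l, (∀ i, ∑ j, ((((0 : Matrix (Fin n) (Fin n) ℤ) +
      (1 : ℤ) • bitMat w) i j : ℤ) : ZMod l) * v j = 0) ↔
      ((SingG.gr w).adjMatrix (ZMod l)) *ᵥ v = 0 := by
    intro v
    rw [funext_iff]
    apply forall_congr'
    intro i
    simp only [h1]
    rfl
  constructor
  · rintro ⟨v, h0, hS, hv⟩
    exact ⟨v, h0, hS, (h2 v).1 hv⟩
  · rintro ⟨v, h0, hS, hv⟩
    exact ⟨v, h0, hS, (h2 v).2 hv⟩

open Classical in
/-- The passage for adjacency matrices: sparse (= not `S`) kernel vectors modulo `l` apart. -/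
theorem passage_graph_prime (l K : ℕ) [NeZero (l ^ K)] (hl : l.Prime) (hK : K ≠ 0)
    (S : (Fin n → ZMod l) → Prop)
    (hS : ∀ (c : (ZMod l)ˣ) (v : Fin n → ZMod l), S v → S fun i => (c : ZMod l) * v i) :
    (Nat.card {G : SimpleGraph (Fin n) // (G.adjMatrix ℝ).det = 0} : ℝ) ≤
      Nat.card {G : SimpleGraph (Fin n) // ∃ v : Fin n → ZMod l, v ≠ 0 ∧ ¬ S v ∧
        (G.adjMatrix (ZMod l)) *ᵥ v = 0} +
      Nat.card (SimpleGraph (Fin n)) *
        ((((l ^ K).totient : ℝ) * ((l ^ K : ℕ) : ℝ) ^ (2 * n + 1))⁻¹ *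
        ∑ lam : ZMod (l ^ K), linkSumS n (l ^ K) (fun v => S fun i => redl l K hK (v i)) 1 lam) := by
  have h1 := passage_prime (n := n) l K hl hK S hS (0 : Matrix (Fin n) (Fin n) ℤ)
    (fun _ _ => rfl) 1
  rw [card_singSet_eq, card_badSetS_eq] at h1
  have h2 : ((2 : ℝ) ^ Fintype.card (Sym2 (Fin n))) =
      (Nat.card (SimpleGraph (Fin n)) : ℝ) * 2 ^ n := by
    have h3 := SingG.card_all (n := n)
    have h4 : (Fintype.card (Sym2 (Fin n) → Bool) : ℝ) =
        (Nat.card (SimpleGraph (Fin n)) : ℝ) * 2 ^ n := by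
      rw [h3]
      push_cast
      rfl
    rw [← h4, Fintype.card_fun]
    simp
  rw [h2] at h1
  obtain ⟨c, hc⟩ : ∃ c : ℝ, c = ((l ^ K).totient : ℝ) * ((l ^ K : ℕ) : ℝ) ^ (2 * n + 1) :=
    ⟨_, rfl⟩
  have hc0 : 0 < c := by
    rw [hc]
    have h5 : 0 < (l ^ K).totient := Nat.totient_pos.2 (Nat.pos_of_ne_zero (NeZero.ne _))
    have h6 : (0 : ℝ) < ((l ^ K).totient : ℝ) := by exact_mod_cast h5
    have h7 : (0 : ℝ) < ((l ^ K : ℕ) : ℝ) := by
      exact_mod_cast Nat.pos_of_ne_zero (NeZero.ne (l ^ K))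
    positivity
  rw [← hc] at h1 ⊢
  obtain ⟨a, ha⟩ : ∃ a : ℝ, a = (Nat.card {G : SimpleGraph (Fin n) //
    (G.adjMatrix ℝ).det = 0} : ℝ) := ⟨_, rfl⟩
  obtain ⟨b, hb⟩ : ∃ b : ℝ, b = (Nat.card {G : SimpleGraph (Fin n) //
    ∃ v : Fin n → ZMod l, v ≠ 0 ∧ ¬ S v ∧ (G.adjMatrix (ZMod l)) *ᵥ v = 0} : ℝ) := ⟨_, rfl⟩
  obtain ⟨g, hg⟩ : ∃ g : ℝ, g = (Nat.card (SimpleGraph (Fin n)) : ℝ) := ⟨_, rfl⟩
  obtain ⟨t, ht⟩ : ∃ t : ℝ, t = ∑ lam : ZMod (l ^ K),
    linkSumS n (l ^ K) (fun v => S fun i => redl l K hK (v i)) 1 lam := ⟨_, rfl⟩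
  push_cast at h1
  rw [← ha, ← hb, ← hg, ← ht] at h1
  rw [← ha, ← hb, ← hg, ← ht]
  have h8 : (0 : ℝ) < 2 ^ n := by positivity
  have h9 : c * 2 ^ n * a ≤ c * 2 ^ n * (b + g * (c⁻¹ * t)) := by
    have h10 : c * 2 ^ n * (b + g * (c⁻¹ * t)) = c * (b * 2 ^ n) + g * 2 ^ n * t := by
      field_simp
    rw [h10]
    linarith
  exact le_of_mul_le_mul_left h9 (by positivity)

end SymSing
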