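import Mathlib
import Pool.Agent.Lib.SymSing.SolSum
import Pool.Agent.Lib.SymSing.CaseSum
import Pool.Agent.Lib.SymSing.PassageS
import Pool.Agent.Lib.SymSing.EndGameReal
import Pool.Agent.Lib.SymSing.EndGameNum
import Pool.Agent.Lib.SymSing.Params

/-!
# Last step for a fixed `e`

All inputs of the last step are hypotheses: the sparse bound (1.1), section 1 for even and odd size,
the outputs of sections 6 and 7, the second moment of the left kernel on the scale `h ^ 2`, and the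
bad event. The output is the hypothesis of `SymSing.endGame_real`.
-/

set_option autoImplicit false

namespace Pool.Agent.Lib.SymSing.Final

open Finset Matrix Pool.Agent.Lib.SymSing.Law Pool.Agent.Lib.SymSing.Duality
open Pool.Agent.Lib.SymSing.Ev Pool.Agent.Lib.SymSing.CaseSum _root_.SymSing
open Pool.Agent.Lib.SymSing.Params
open scoped Classical

noncomputable section

/-- The weight of the long rows beats the second moment. -/
theorem tiny_moment {w t δ c1 : ℝ} (hw : 0 < w) (ht : 0 < t) (hδ : 0 < δ) (hc1 : 0 < c1) :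
    ∃ δ' : ℝ, 0 < δ' ∧ ∃ h0 : ℕ, ∀ h ≥ h0, ∀ D : ℕ, δ * h ≤ D → ∀ X : ℝ,
      X ≤ Real.exp (δ' * (h : ℝ) ^ 2) →
      tinyB w t D (c1 * h) * X ≤ Real.exp (-(3 * h)) := by
  obtain ⟨A, hA⟩ : ∃ A : ℝ, A = t * δ * c1 / (16 * w) := ⟨_, rfl⟩
  have hA0 : 0 < A := by
    rw [hA]
    positivity
  obtain ⟨h1, hh1⟩ := exists_nat_ge (4 * w / c1)
  obtain ⟨h2, hh2⟩ := exists_nat_ge (6 / A)
  refine ⟨A / 2, by positivity, max h1 h2, fun h hh D hD X hX => ?_⟩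
  have g1 : 4 * w ≤ c1 * h := by
    have : 4 * w / c1 ≤ h := hh1.trans (by exact_mod_cast (le_max_left _ _).trans hh)
    rw [div_le_iff₀ hc1] at this
    linarith
  have g2 : 6 ≤ A * h := by
    have : 6 / A ≤ h := hh2.trans (by exact_mod_cast (le_max_right _ _).trans hh)
    rw [div_le_iff₀ hA0] at this
    linarith
  have hh0 : (0 : ℝ) ≤ h := Nat.cast_nonneg _
  have hD0 : (0 : ℝ) ≤ D := Nat.cast_nonneg _
  have g3 : A * (h : ℝ) ^ 2 ≤ t / (4 * w) * (D * (c1 * h - 2 * w) / 2) := by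
    have g4 : δ * h * (c1 * h / 2) ≤ D * (c1 * h - 2 * w) := by
      refine mul_le_mul hD (by linarith) (by positivity) hD0
    calc A * (h : ℝ) ^ 2 = t / (4 * w) * (δ * h * (c1 * h / 2) / 2) := by
          rw [hA]
          field_simp
          ring
      _ ≤ _ := by
          refine mul_le_mul_of_nonneg_left ?_ (by positivity)
          linarith
  have g5 : tinyB w t D (c1 * h) ≤ Real.exp (-(A * (h : ℝ) ^ 2)) := by
    unfold tinyB
    refine Real.exp_le_exp.2 ?_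
    rw [neg_mul]
    exact neg_le_neg g3
  calc tinyB w t D (c1 * h) * X
      ≤ tinyB w t D (c1 * h) * Real.exp (A / 2 * (h : ℝ) ^ 2) :=
        mul_le_mul_of_nonneg_left hX (tinyB_pos _ _ _ _).le
    _ ≤ Real.exp (-(A * (h : ℝ) ^ 2)) * Real.exp (A / 2 * (h : ℝ) ^ 2) :=
        mul_le_mul_of_nonneg_right g5 (Real.exp_pos _).le
    _ = Real.exp (-(A / 2 * (h : ℝ) ^ 2)) := by
        rw [← Real.exp_add]
        congr 1
        ring
    _ ≤ Real.exp (-(3 * h)) := by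
        refine Real.exp_le_exp.2 ?_
        nlinarith

/-- The inputs of the last step, for fixed parameters. -/
structure Inputs (w t e δ c1 : ℝ) (l : ℕ) : Prop where
  /-- (1.1) -/
  sparse : ∃ n0 : ℕ, ∀ n ≥ n0, ∀ D : ℕ, (D : ℝ) ≤ 2 * δ * n →
    (Nat.card {G : SimpleGraph (Fin n) // ∃ v : Fin n → ZMod l, v ≠ 0 ∧ ¬ (D < #{i | v i ≠ 0}) ∧
        (G.adjMatrix (ZMod l)) *ᵥ v = 0} : ℝ) ≤
      Nat.card (SimpleGraph (Fin n)) * (2 : ℝ) ^ (-(1 - e) * n)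
  /-- section 1, even size -/
  even : ∃ h0 : ℕ, ∀ h ≥ h0, ∀ (k D : ℕ) [NeZero (l ^ k)] (hk : k ≠ 0) (lam : ZMod (l ^ k)),
    linkSumS (2 * h) (l ^ k) (fun v => 2 * D < #{i | redl l k hk (v i) ≠ 0}) 1 lam ≤
      2 * ((l ^ k : ℕ) : ℝ) ^ (3 * h) * S1 (Fin h) h w t D lam
  /-- section 1, odd size -/
  odd : ∃ h0 : ℕ, ∀ h ≥ h0, ∀ (k D : ℕ) [NeZero (l ^ k)] (hk : k ≠ 0) (lam : ZMod (l ^ k)),
    linkSumS (2 * h + 1) (l ^ k) (fun v => 2 * D < #{i | redl l k hk (v i) ≠ 0}) 1 lam ≤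
      2 * ((l ^ k : ℕ) : ℝ) ^ (3 * (h + 1)) * S1 (Fin (h + 1)) h w t D lam
  /-- section 3 -/
  moment : ∀ δ' : ℝ, 0 < δ' → ∃ h0 : ℕ, ∀ h ≥ h0, ∀ (k N : ℕ) [NeZero N], Scale w e l k N h →
    E w (fun M : Fin h → Fin h → SignType => (cW N (l ^ k) M : ℝ) ^ 2) ≤
      Real.exp (δ' * (h : ℝ) ^ 2)
  /-- section 4 -/
  bad : ∃ h0 : ℕ, ∀ h ≥ h0, ∀ (k N : ℕ) [NeZero N], Scale w e l k N h →
    Ex w (fun M : Fin h → Fin h → SignType => (cW N (l ^ k) M : ℝ) ^ 2)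
      (Bad w N (c1 / (l : ℝ) ^ 2 * h) (Qst w e h) (((h : ℝ) ^ 3)⁻¹)) ≤ Real.exp (-(3 * h))
  /-- section 6 -/
  sec6 : ∃ h0 : ℕ, ∀ h ≥ h0, ∀ (k N : ℕ) [NeZero N], Scale w e l k N h →
    Ex w (fun M : Fin h → Fin h → SignType => (cW N (l ^ k) M : ℝ) ^ 2)
      (Low w N (l ^ k) (c1 * h)) ≤ 1 ∧
    Ex w (fun M : Fin h → Fin h → SignType => (Nat.card {v : Fin h → ZMod N //
        v ∈ lker N M ∧ addOrderOf v = l ^ k} : ℝ)) (fun M => ¬ Low w N (l ^ k) (c1 * h) M) ≤ 4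
  /-- section 7 -/
  sec7 : ∃ h0 : ℕ, ∀ h ≥ h0, ∀ (k N D : ℕ) [NeZero N], Scale w e l k N h → δ * h ≤ D →
    Ex w (fun M : Fin h → Fin h → SignType => (cW N (l ^ k) M : ℝ) ^ 2) (NN w N l D (c1 * h)) ≤
      Real.exp (-(29 / 10 * h))

/-- The bounds for the two sums, `m = h` columns. -/
theorem S1_bounds {w t e δ c1 : ℝ} {l : ℕ} (hl : l.Prime) (hl2 : l ≠ 2) (hw : 0 < w)
    (hw1 : w ≤ 1 / 2) (ht : 0 < t) (hδ : 0 < δ) (hc1 : 0 < c1) (hc : c1 < 8 * w * δ)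
    (he : 0 < e) (he1 : e ≤ 1) (H : Inputs w t e δ c1 l) :
    ∃ h0 : ℕ, ∀ h ≥ h0, ∀ (k D : ℕ) [NeZero (l ^ k)], Scale w e l k (l ^ k * l ^ k) h →
      δ * h ≤ D → ∃ τ : ℝ, 0 ≤ τ ∧ ((l ^ k : ℕ) : ℝ) ^ 2 * τ ≤ 1 ∧
      (∀ lam : ZMod (l ^ k), lam ≠ 0 → S1 (Fin h) h w t D lam ≤ τ * ((l ^ k : ℕ) : ℝ) ^ h ∧
        S1 (Fin (h + 1)) h w t D lam ≤ τ * ((l ^ k : ℕ) : ℝ) ^ h) ∧
      S1 (Fin h) h w t D (0 : ZMod (l ^ k)) ≤ 6 * ((l ^ k : ℕ) : ℝ) ^ h ∧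
      S1 (Fin (h + 1)) h w t D (0 : ZMod (l ^ k)) ≤
        13 * ((l ^ k : ℕ) : ℝ) ^ h / ((l ^ k : ℕ) : ℝ) := by
  obtain ⟨δ', hδ', h1, H1⟩ := tiny_moment hw ht hδ hc1
  obtain ⟨h2, H2⟩ := H.moment δ' hδ'
  obtain ⟨h3, H3⟩ := H.bad
  obtain ⟨h4, H4⟩ := H.sec6
  obtain ⟨h5, H5⟩ := H.sec7
  obtain ⟨h6, hh6⟩ := exists_nat_ge (2 * w / c1)
  obtain ⟨h7, hh7⟩ := exists_nat_ge (1 / δ)
  obtain ⟨h8, hh8⟩ := exists_nat_ge (4 : ℝ)
  refine ⟨h1 + h2 + h3 + h4 + h5 + h6 + h7 + h8, ?_⟩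
  intro h hh k D _ hS hD
  have G1 := H1 h (by omega) D hD
  have : NeZero (l ^ k * l ^ k) := ⟨mul_ne_zero (NeZero.ne _) (NeZero.ne _)⟩
  have G2 := G1 _ (H2 h (by omega) k (l ^ k * l ^ k) hS)
  have G3 := H3 h (by omega) k (l ^ k * l ^ k) hS
  obtain ⟨G4, G4'⟩ := H4 h (by omega) k (l ^ k * l ^ k) hS
  have G5 := H5 h (by omega) k (l ^ k * l ^ k) D hS hD
  have c6 : 2 * w ≤ c1 * h := by
    have : 2 * w / c1 ≤ h := hh6.trans (by exact_mod_cast (by omega : h6 ≤ h))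
    rw [div_le_iff₀ hc1] at this
    linarith
  have c7 : 1 ≤ δ * h := by
    have : 1 / δ ≤ h := hh7.trans (by exact_mod_cast (by omega : h7 ≤ h))
    rw [div_le_iff₀ hδ] at this
    linarith
  have c8 : (4 : ℝ) ≤ h := hh8.trans (by exact_mod_cast (by omega : h8 ≤ h))
  have hD1 : 1 ≤ D := by
    have : (1 : ℝ) ≤ D := c7.trans hD
    exact_mod_cast this
  have hk := hS.hk
  have hl0 : (0 : ℝ) < l := by exact_mod_cast hl.pos
  have hq0 : (0 : ℝ) < (l : ℝ) ^ k := by positivity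
  have hqh : (0 : ℝ) < ((l : ℝ) ^ k) ^ h := by positivity
  have hcast : ((l ^ k : ℕ) : ℝ) = (l : ℝ) ^ k := by push_cast; rfl
  -- the size of the modulus
  have hlog2 : -Real.log (1 - w) ≤ 7 / 10 := by
    have a1 : Real.log (1 / 2) ≤ Real.log (1 - w) := Real.log_le_log (by norm_num) (by linarith)
    have a2 : Real.log (1 / 2 : ℝ) = -Real.log 2 := by
      rw [one_div, Real.log_inv]
    have a3 := Real.log_two_lt_d9
    rw [a2] at a1
    linarith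
  have hlogpos : 0 ≤ -Real.log (1 - w) := by
    have := Real.log_nonpos (show (0 : ℝ) ≤ 1 - w by linarith) (by linarith)
    linarith
  have hN : ((l : ℝ) ^ k) ^ 2 ≤ Real.exp (7 / 10 * h) := by
    have a1 := hS.up
    push_cast at a1
    rw [← sq] at a1
    refine a1.trans (Real.exp_le_exp.2 ?_)
    have a2 : (1 - e) * -Real.log (1 - w) ≤ 1 * (7 / 10) :=
      mul_le_mul (by linarith) hlog2 hlogpos (by norm_num)
    rw [one_mul] at a2
    exact mul_le_mul_of_nonneg_right a2 (Nat.cast_nonneg _)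
  have hq1 : (1 : ℝ) ≤ (l : ℝ) ^ k := one_le_pow₀ (by exact_mod_cast hl.one_le)
  obtain ⟨τ, hτ⟩ : ∃ τ : ℝ, τ = 2 * Real.exp (-(29 / 10 * h)) := ⟨_, rfl⟩
  have hex : Real.exp (-(3 * (h : ℝ))) ≤ Real.exp (-(29 / 10 * h)) :=
    Real.exp_le_exp.2 (by linarith)
  have hsmall : 2 * Real.exp (-(22 / 10 * (h : ℝ))) ≤ 1 := by
    have a1 : Real.exp (-(22 / 10 * (h : ℝ))) ≤ Real.exp (-1) := Real.exp_le_exp.2 (by linarith)
    have a2 : Real.exp (-1 : ℝ) ≤ 1 / 2 := by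
      rw [Real.exp_neg, inv_eq_one_div]
      refine one_div_le_one_div_of_le (by norm_num) ?_
      have := Real.add_one_le_exp (1 : ℝ)
      linarith
    linarith
  have hτ1 : ((l : ℝ) ^ k) ^ 2 * τ ≤ 1 := by
    calc ((l : ℝ) ^ k) ^ 2 * τ ≤ Real.exp (7 / 10 * h) * (2 * Real.exp (-(29 / 10 * h))) := by
          rw [hτ]
          exact mul_le_mul_of_nonneg_right hN (by positivity)
      _ = 2 * Real.exp (-(22 / 10 * (h : ℝ))) := by
          rw [mul_left_comm, ← Real.exp_add]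
          congr 2
          ring
      _ ≤ 1 := hsmall
  have hτ2 : (l : ℝ) ^ k * τ ≤ 1 := by
    refine le_trans ?_ hτ1
    have : 0 ≤ τ := by rw [hτ]; positivity
    refine mul_le_mul_of_nonneg_right ?_ this
    nlinarith
  have hτ0 : 0 ≤ τ := by rw [hτ]; positivity
  have B1 : ∀ lam : ZMod (l ^ k), lam ≠ 0 →
      S1 (Fin h) h w t D lam ≤ τ * ((l : ℝ) ^ k) ^ h := by
    intro lam hlam
    have a1 := S1_le (κ := Fin h) (h := h) hl hl2 hk hD1 hlam hw (by linarith) ht.le c6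
    refine a1.trans ?_
    rw [mul_comm]
    refine mul_le_mul_of_nonneg_right ?_ hqh.le
    rw [hτ]
    have a2 : E w (fun M : Fin h → Fin h → SignType =>
        if NN w (l ^ k * l ^ k) l D (c1 * h) M then (cW (l ^ k * l ^ k) (l ^ k) M : ℝ) ^ 2 else 0)
        ≤ Real.exp (-(29 / 10 * h)) := G5
    linarith
  have B0 : S1 (Fin h) h w t D (0 : ZMod (l ^ k)) ≤ 6 * ((l : ℝ) ^ k) ^ h := by
    have a1 := S1_zero_le (κ := Fin h) (h := h) hl hl2 hk hD1 hw (by linarith) ht.le c6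
    refine a1.trans ?_
    rw [mul_comm]
    refine mul_le_mul_of_nonneg_right ?_ hqh.le
    have a2 : E w (fun M : Fin h → Fin h → SignType =>
        if Low w (l ^ k * l ^ k) (l ^ k) (c1 * h) M then
          (cW (l ^ k * l ^ k) (l ^ k) M : ℝ) ^ 2 else 0) ≤ 1 := G4
    have a3 : E w (fun M : Fin h → Fin h → SignType =>
        if Low w (l ^ k * l ^ k) (l ^ k) (c1 * h) M then 0 else
          (cOrd (l ^ k * l ^ k) (l ^ k) M : ℝ)) ≤ 4 := by
      refine le_trans (le_of_eq ?_) G4'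
      unfold Ex
      refine congrArg _ (funext fun M => ?_)
      by_cases hL : Low w (l ^ k * l ^ k) (l ^ k) (c1 * h) M
      · rw [if_pos hL, if_neg (not_not.2 hL)]
      · rw [if_neg hL, if_pos hL]
        rfl
    have a4 : Real.exp (-(3 * (h : ℝ))) ≤ 1 := Real.exp_le_one_iff.2 (by linarith)
    linarith
  refine ⟨τ, hτ0, by rw [hcast]; exact hτ1, ?_, by rw [hcast]; exact B0, ?_⟩
  · intro lam hlam
    rw [hcast]
    exact ⟨B1 lam hlam, (S1_snoc_le D lam hw.le (by linarith)).trans (B1 lam hlam)⟩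
  · rw [hcast]
    have c9 : (c1 / (l : ℝ) ^ 2 * h) < (D : ℝ) * (8 * w / (l : ℝ) ^ 2) := by
      have b1 : c1 * h < 8 * w * D := by
        have b2 : 0 < (h : ℝ) := by linarith
        calc c1 * h < 8 * w * δ * h := mul_lt_mul_of_pos_right hc b2
          _ = 8 * w * (δ * h) := by ring
          _ ≤ 8 * w * D := mul_le_mul_of_nonneg_left hD (by positivity)
      have b3 : (0 : ℝ) < (l : ℝ) ^ 2 := by positivity
      rw [div_mul_eq_mul_div, ← mul_div_assoc]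
      refine (div_lt_div_iff_of_pos_right b3).2 ?_
      linarith
    have c10 : (l : ℝ) ^ 2 * (c1 / (l : ℝ) ^ 2 * h) ≤ c1 * h := by
      have b3 : (l : ℝ) ^ 2 ≠ 0 := by positivity
      refine le_of_eq ?_
      field_simp
    have c11 : (l : ℝ) ^ k ≤ Qst w e h := by
      have b1 : (l : ℝ) ^ k ≤ ((l : ℝ) ^ k) ^ 2 := by nlinarith
      have a1 := hS.up
      push_cast at a1
      rw [← sq] at a1
      refine b1.trans (a1.trans (Real.exp_le_exp.2 ?_))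
      refine mul_le_mul_of_nonneg_right ?_ (Nat.cast_nonneg _)
      refine mul_le_mul_of_nonneg_right (by linarith) hlogpos
    have c12 : (((h : ℝ) ^ 3)⁻¹) ≤ 1 := by
      refine inv_le_one_of_one_le₀ ?_
      exact one_le_pow₀ (by linarith)
    have a1 := S1_snoc_zero_le (h := h) (m := h) hl hk hD1 hw (by linarith) ht.le c10 c9 c11 c12
    refine a1.trans ?_
    have a2 : E w (fun M : Fin h → Fin h → SignType =>
        if NN w (l ^ k * l ^ k) l D (c1 * h) M then (cW (l ^ k * l ^ k) (l ^ k) M : ℝ) ^ 2 else 0)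
        ≤ Real.exp (-(29 / 10 * h)) := G5
    have a3 : E w (fun M : Fin h → Fin h → SignType =>
        if Bad w (l ^ k * l ^ k) (c1 / (l : ℝ) ^ 2 * h) (Qst w e h) (((h : ℝ) ^ 3)⁻¹) M then
          (cW (l ^ k * l ^ k) (l ^ k) M : ℝ) ^ 2 else 0) ≤ Real.exp (-(3 * h)) := G3
    have a4 : ((l : ℝ) ^ k) ^ h * (Real.exp (-(29 / 10 * h)) + Real.exp (-(3 * h))) ≤
        ((l : ℝ) ^ k) ^ h / (l : ℝ) ^ k := by
      rw [le_div_iff₀ hq0, mul_assoc]
      refine mul_le_of_le_one_right hqh.le ?_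
      calc (Real.exp (-(29 / 10 * (h : ℝ))) + Real.exp (-(3 * h))) * (l : ℝ) ^ k
          ≤ (Real.exp (-(29 / 10 * h)) + Real.exp (-(29 / 10 * h))) * (l : ℝ) ^ k :=
            mul_le_mul_of_nonneg_right (by linarith) hq0.le
        _ = (l : ℝ) ^ k * τ := by
            rw [hτ]
            ring
        _ ≤ 1 := hτ2
    calc _ ≤ 2 / (l : ℝ) ^ k * (6 * ((l : ℝ) ^ k) ^ h) +
          ((l : ℝ) ^ k) ^ h * (Real.exp (-(29 / 10 * h)) + Real.exp (-(3 * h))) :=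
          add_le_add (mul_le_mul_of_nonneg_left B0 (by positivity))
            (mul_le_mul_of_nonneg_left (add_le_add a2 a3) hqh.le)
      _ ≤ 2 / (l : ℝ) ^ k * (6 * ((l : ℝ) ^ k) ^ h) + ((l : ℝ) ^ k) ^ h / (l : ℝ) ^ k := by
          linarith
      _ = 13 * ((l : ℝ) ^ k) ^ h / (l : ℝ) ^ k := by ring

/-- The non-sparse part, for one size. -/
theorem nonsparse_le {w t e δ c1 : ℝ} {l : ℕ} (hl : l.Prime) (hl2 : l ≠ 2) (hw : 0 < w)
    (hw1 : w ≤ 1 / 2) (ht : 0 < t) (hδ : 0 < δ) (hc1 : 0 < c1) (hc : c1 < 8 * w * δ)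
    (he : 0 < e) (he1 : e < 1) (H : Inputs w t e δ c1 l) :
    ∃ n0 : ℕ, ∀ n ≥ n0, ∃ (k D : ℕ) (hk : k ≠ 0), (D : ℝ) ≤ δ * n ∧
      (1 / ((l ^ k : ℕ) : ℝ) ^ 2 ≤ (l : ℝ) ^ 2 * (1 - w) ^ ((1 - e) * ((n / 2 : ℕ) : ℝ))) ∧
      ∀ [NeZero (l ^ k)], (Nat.card (SimpleGraph (Fin n)) : ℝ) *
        ((((l ^ k).totient : ℝ) * ((l ^ k : ℕ) : ℝ) ^ (2 * n + 1))⁻¹ *
        ∑ lam : ZMod (l ^ k),
          linkSumS n (l ^ k) (fun v => 2 * D < #{i | redl l k hk (v i) ≠ 0}) 1 lam) ≤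
      56 / ((l ^ k : ℕ) : ℝ) ^ 2 * Nat.card (SimpleGraph (Fin n)) := by
  obtain ⟨h1, H1⟩ := S1_bounds hl hl2 hw hw1 ht hδ hc1 hc he he1.le H
  obtain ⟨h2, H2⟩ := H.even
  obtain ⟨h3, H3⟩ := H.odd
  obtain ⟨h4, H4⟩ := Filter.eventually_atTop.1 (exists_scale hw hw1 he1 hl.two_le)
  obtain ⟨h5, hh5⟩ := exists_nat_ge (1 / δ)
  refine ⟨2 * (h1 + h2 + h3 + h4 + h5) + 2, fun n hn => ?_⟩
  obtain ⟨h, hh⟩ : ∃ h : ℕ, h = n / 2 := ⟨_, rfl⟩
  obtain ⟨k, hS⟩ := H4 h (by omega)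
  have hk : k ≠ 0 := by
    have := hS.hk
    omega
  have hne : NeZero (l ^ k) := ⟨pow_ne_zero _ hl.ne_zero⟩
  have c5 : 1 ≤ δ * h := by
    have : 1 / δ ≤ h := hh5.trans (by exact_mod_cast (by omega : h5 ≤ h))
    rw [div_le_iff₀ hδ] at this
    linarith
  have hDn : ((⌈δ * h⌉₊ : ℕ) : ℝ) ≤ δ * n := by
    have a1 : ((⌈δ * h⌉₊ : ℕ) : ℝ) < δ * h + 1 := Nat.ceil_lt_add_one (by positivity)
    have a2 : (2 * h : ℝ) ≤ n := by
      have : 2 * h ≤ n := by omega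
      exact_mod_cast this
    nlinarith
  obtain ⟨τ, hτ0, hτ1, hlam, hz0, hz1⟩ := H1 h (by omega) k ⌈δ * h⌉₊ hS (Nat.le_ceil _)
  have hq0 : (0 : ℝ) < ((l ^ k : ℕ) : ℝ) := by
    exact_mod_cast pow_pos hl.pos k
  have hq1 : (1 : ℝ) ≤ ((l ^ k : ℕ) : ℝ) := by
    exact_mod_cast Nat.one_le_pow _ _ hl.pos
  have hτ2 : ((l ^ k : ℕ) : ℝ) * τ ≤ 1 := by
    refine le_trans (mul_le_mul_of_nonneg_right ?_ hτ0) hτ1
    nlinarith
  have hph := endGame_totient hl (Nat.one_le_iff_ne_zero.2 hk)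
  have hph0 : (0 : ℝ) < ((l ^ k).totient : ℝ) := by
    exact_mod_cast Nat.totient_pos.2 (pow_pos hl.pos k)
  refine ⟨k, ⌈δ * h⌉₊, hk, hDn, ?_, ?_⟩
  · rw [← hh]
    refine endGame_q hl.one_le (by linarith) ?_
    have a1 := hS.low
    have hl0 : (0 : ℝ) < l := by exact_mod_cast hl.pos
    have a2 : ((l ^ k * l ^ k : ℕ) : ℝ) * (l : ℝ) ^ 2 = Real.exp (2 * (k + 1) * Real.log l) := by
      push_cast
      rw [← pow_add, ← pow_add, ← Real.rpow_natCast, Real.rpow_def_of_pos hl0]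
      congr 1
      push_cast
      ring
    rw [a2] at a1
    exact Real.exp_le_exp.1 a1
  · intro hne'
    have hG : (0 : ℝ) ≤ Nat.card (SimpleGraph (Fin n)) := Nat.cast_nonneg _
    obtain ⟨N, hN⟩ : ∃ N : ℝ, N = (Nat.card (SimpleGraph (Fin n)) : ℝ) *
        ((((l ^ k).totient : ℝ) * ((l ^ k : ℕ) : ℝ) ^ (2 * n + 1))⁻¹ *
        ∑ lam : ZMod (l ^ k), linkSumS n (l ^ k)
          (fun v => 2 * ⌈δ * h⌉₊ < #{i | redl l k hk (v i) ≠ 0}) 1 lam) := ⟨_, rfl⟩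
    have hN0 : 0 ≤ N := by
      rw [hN]
      have : 0 ≤ ∑ lam : ZMod (l ^ k), linkSumS n (l ^ k)
          (fun v => 2 * ⌈δ * h⌉₊ < #{i | redl l k hk (v i) ≠ 0}) 1 lam :=
        Finset.sum_nonneg fun _ _ => linkSumS_nonneg _ _ _ _
      positivity
    have hN2 : ((l ^ k).totient : ℝ) * ((l ^ k : ℕ) : ℝ) ^ (2 * n + 1) * N =
        Nat.card (SimpleGraph (Fin n)) * ∑ lam : ZMod (l ^ k), linkSumS n (l ^ k)
          (fun v => 2 * ⌈δ * h⌉₊ < #{i | redl l k hk (v i) ≠ 0}) 1 lam := by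
      have a1 : ((l ^ k).totient : ℝ) * ((l ^ k : ℕ) : ℝ) ^ (2 * n + 1) ≠ 0 := by positivity
      rw [hN]
      field_simp
    rw [← hN]
    have key : N ≤ 4 * (13 + 1) / ((l ^ k : ℕ) : ℝ) ^ 2 * Nat.card (SimpleGraph (Fin n)) := by
      rcases Nat.even_or_odd' n with ⟨m, rfl | rfl⟩
      · have hm : h = m := by omega
        subst hm
        refine endGame_even (h := h) (S := fun lam => S1 (Fin h) h w t ⌈δ * h⌉₊ lam)
          (τ := τ) hph hN0 hG ?_ ?_ (fun lam hl => (hlam lam hl).1) hτ0 hτ2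
        · rw [hN2, mul_assoc]
          refine mul_le_mul_of_nonneg_left ?_ hG
          rw [Finset.mul_sum]
          refine Finset.sum_le_sum fun lam _ => ?_
          have := H2 h (by omega) k ⌈δ * h⌉₊ hk lam
          linarith
        · refine hz0.trans ?_
          have : (0 : ℝ) ≤ ((l ^ k : ℕ) : ℝ) ^ h := by positivity
          linarith
      · have hm : h = m := by omega
        subst hm
        refine endGame_odd (h := h) (S := fun lam => S1 (Fin (h + 1)) h w t ⌈δ * h⌉₊ lam)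
          (τ := τ) hph hN0 hG ?_ hz1 (fun lam hl => (hlam lam hl).2) hτ0 hτ1
        rw [hN2, mul_assoc]
        refine mul_le_mul_of_nonneg_left ?_ hG
        rw [Finset.mul_sum]
        refine Finset.sum_le_sum fun lam _ => ?_
        have := H3 h (by omega) k ⌈δ * h⌉₊ hk lam
        linarith
    refine key.trans (le_of_eq ?_)
    norm_num

/-- **The last step for fixed parameters.** -/
theorem final_step {w t e δ c1 : ℝ} {l : ℕ} (hl : l.Prime) (hl2 : l ≠ 2) (hw : 0 < w)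
    (hw1 : w ≤ 1 / 2) (ht : 0 < t) (hδ : 0 < δ) (hc1 : 0 < c1) (hc : c1 < 8 * w * δ)
    (he : 0 < e) (he1 : e < 1) (H : Inputs w t e δ c1 l) :
    ∃ C : ℝ, 0 ≤ C ∧ ∃ n0 : ℕ, ∀ n ≥ n0,
      (Nat.card {G : SimpleGraph (Fin n) // (G.adjMatrix ℝ).det = 0} : ℝ) /
        Nat.card (SimpleGraph (Fin n)) ≤
      C * (2 : ℝ) ^ (-(1 - e) * n) + C * (1 - w) ^ ((1 - e) * ((n / 2 : ℕ) : ℝ)) := by
  obtain ⟨n1, H1⟩ := H.sparse
  obtain ⟨n2, H2⟩ := nonsparse_le hl hl2 hw hw1 ht hδ hc1 hc he he1 H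
  refine ⟨56 * (l : ℝ) ^ 2, by positivity, n1 + n2, fun n hn => ?_⟩
  obtain ⟨k, D, hk, hD, hq, h3⟩ := H2 n (by omega)
  have hne : NeZero (l ^ k) := ⟨pow_ne_zero _ hl.ne_zero⟩
  have hpass := passage_graph_prime (n := n) l k hl hk (fun v => 2 * D < #{i | v i ≠ 0}) (by
    intro c v hv
    have : (univ.filter fun i => (c : ZMod l) * v i ≠ 0) = univ.filter fun i => v i ≠ 0 := by
      ext i
      simp only [Finset.mem_filter, Finset.mem_univ, true_and]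
      rw [not_iff_not]
      exact Units.mul_right_eq_zero c
    rw [this]
    exact hv)
  have hsp := H1 n (by omega) (2 * D) (by
    push_cast
    linarith)
  have h4 := h3
  have hG : (0 : ℝ) < Nat.card (SimpleGraph (Fin n)) := by
    exact_mod_cast Nat.card_pos
  rw [div_le_iff₀ hG]
  have hl1 : (1 : ℝ) ≤ l := by exact_mod_cast hl.one_le
  have hC : (1 : ℝ) ≤ 56 * (l : ℝ) ^ 2 := by nlinarith
  have h2pos : (0 : ℝ) < (2 : ℝ) ^ (-(1 - e) * n) := Real.rpow_pos_of_pos (by norm_num) _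
  calc (Nat.card {G : SimpleGraph (Fin n) // (G.adjMatrix ℝ).det = 0} : ℝ)
      ≤ Nat.card (SimpleGraph (Fin n)) * (2 : ℝ) ^ (-(1 - e) * n) +
        56 / ((l ^ k : ℕ) : ℝ) ^ 2 * Nat.card (SimpleGraph (Fin n)) :=
        hpass.trans (add_le_add hsp h4)
    _ = ((2 : ℝ) ^ (-(1 - e) * n) + 56 * (1 / ((l ^ k : ℕ) : ℝ) ^ 2)) *
        Nat.card (SimpleGraph (Fin n)) := by ring
    _ ≤ (56 * (l : ℝ) ^ 2 * (2 : ℝ) ^ (-(1 - e) * n) + 56 * ((l : ℝ) ^ 2 *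
        (1 - w) ^ ((1 - e) * ((n / 2 : ℕ) : ℝ)))) * Nat.card (SimpleGraph (Fin n)) := by
        refine mul_le_mul_of_nonneg_right (add_le_add ?_ ?_) hG.le
        · nlinarith
        · linarith
    _ = _ := by ring

/-- **The final statement from the inputs.** -/
theorem final_of_inputs {e0 : ℝ} (he0 : 0 < e0) (he1 : e0 < 1)
    (H : ∀ e : ℝ, 0 < e → e ≤ e0 → ∃ (l : ℕ) (δ c1 : ℝ), l.Prime ∧ l ≠ 2 ∧ 0 < δ ∧ 0 < c1 ∧
      c1 < 8 * (1 / 2 - 3 * e / 40) * δ ∧ Inputs (1 / 2 - 3 * e / 40) (e / 10) e δ c1 l) :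
    ∀ ε : ℝ, 0 < ε → ∃ n0 : ℕ, ∀ n ≥ n0,
      (Nat.card {G : SimpleGraph (Fin n) // (G.adjMatrix ℝ).det = 0} : ℝ) /
        Nat.card (SimpleGraph (Fin n)) ≤ (1 / √2 + ε) ^ n := by
  refine endGame_real _ he0 fun e he hee => ?_
  obtain ⟨l, δ, c1, hl, hl2, hδ, hc1, hc, hI⟩ := H e he hee
  have h1 := final_step hl hl2 (by linarith) (by linarith) (by linarith) hδ hc1 hc he
    (by linarith) hI
  have h2 : 1 - (1 / 2 - 3 * e / 40) = 1 / 2 + 3 * e / 40 := by ring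
  rw [h2] at h1
  exact h1

end

end Pool.Agent.Lib.SymSing.Final
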