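import Mathlib
import Pool.Agent.Lib.SymSing.SolSum
import Pool.Agent.Lib.SymSing.Sum63
import Pool.Agent.Lib.SymSing.PassageS
import Pool.Agent.Lib.SymSing.EndGameNum

/-!
# The goals of section 1 (h23_full) from the moment bounds, and the graph bound

* `S1_zero_bound`, `S1_bound`, `S1_snoc_zero_bound`, `S1_snoc_bound`: bounds for the sums `S1` from
  numerical bounds for the second moments of the left kernel on the events `Low`, `NN`, `Bad` and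
  for the number of kernel vectors of order `q`.
* `graphs_even`, `graphs_odd`: the number of graphs with singular adjacency matrix.
-/

set_option autoImplicit false

namespace SymSing

open Finset Matrix
open Pool.Agent.Lib.SymSing.Law
open Pool.Agent.Lib.SymSing.Ev
open Pool.Agent.Lib.SymSing.CaseSum

variable {h l k : ℕ} {κ : Type*}

section Bounds

variable [Fintype κ] [DecidableEq κ] [NeZero (l ^ k)]

/-- Bound for `S1`, `lam ≠ 0`. -/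
theorem S1_bound (hl : l.Prime) (hl2 : l ≠ 2) (hk : 1 ≤ k) {D : ℕ} (hD : 1 ≤ D)
    {lam : ZMod (l ^ k)} (h0 : lam ≠ 0) {w t E1 : ℝ} (hw : 0 < w) (hw1 : w ≤ 1) (ht : 0 ≤ t)
    (hE : 2 * w ≤ E1) {A2 AN b : ℝ}
    (hA2 : E w (fun M : κ → Fin h → SignType =>
      (cW (l ^ k * l ^ k) (l ^ k) M : ℝ) ^ 2) ≤ A2)
    (hAN : Ex w (fun M : κ → Fin h → SignType => (cW (l ^ k * l ^ k) (l ^ k) M : ℝ) ^ 2)
      (NN w (l ^ k * l ^ k) l D E1) ≤ AN)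
    (hb : tinyB w t D E1 * A2 ≤ b) :
    S1 κ h w t D lam ≤ (b + AN) * ((l ^ k : ℕ) : ℝ) ^ h := by
  have h1 : S1 κ h w t D lam ≤ ((l : ℝ) ^ k) ^ h *
      (tinyB w t D E1 * E w (fun M : κ → Fin h → SignType =>
        (cW (l ^ k * l ^ k) (l ^ k) M : ℝ) ^ 2) +
      Ex w (fun M : κ → Fin h → SignType => (cW (l ^ k * l ^ k) (l ^ k) M : ℝ) ^ 2)
        (NN w (l ^ k * l ^ k) l D E1)) :=
    S1_le (κ := κ) (h := h) hl hl2 hk hD h0 hw hw1 ht hE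
  refine h1.trans ?_
  rw [mul_comm]
  push_cast
  refine mul_le_mul_of_nonneg_right (add_le_add (le_trans ?_ hb) hAN) (by positivity)
  exact mul_le_mul_of_nonneg_left hA2 (tinyB_pos w t D E1).le

/-- Bound for `S1`, `lam = 0`. -/
theorem S1_zero_bound (hl : l.Prime) (hl2 : l ≠ 2) (hk : 1 ≤ k) {D : ℕ} (hD : 1 ≤ D)
    {w t E1 : ℝ} (hw : 0 < w) (hw1 : w ≤ 1) (ht : 0 ≤ t)
    (hE : 2 * w ≤ E1) {A2 AL AO b : ℝ}
    (hA2 : E w (fun M : κ → Fin h → SignType =>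
      (cW (l ^ k * l ^ k) (l ^ k) M : ℝ) ^ 2) ≤ A2)
    (hAL : Ex w (fun M : κ → Fin h → SignType => (cW (l ^ k * l ^ k) (l ^ k) M : ℝ) ^ 2)
      (Low w (l ^ k * l ^ k) (l ^ k) E1) ≤ AL)
    (hAO : Ex w (fun M : κ → Fin h → SignType => (cOrd (l ^ k * l ^ k) (l ^ k) M : ℝ))
      (fun M => ¬ Low w (l ^ k * l ^ k) (l ^ k) E1 M) ≤ AO)
    (hb : tinyB w t D E1 * A2 ≤ b) :
    S1 κ h w t D (0 : ZMod (l ^ k)) ≤ (b + AL + AO) * ((l ^ k : ℕ) : ℝ) ^ h := by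
  have h1 : S1 κ h w t D (0 : ZMod (l ^ k)) ≤ ((l : ℝ) ^ k) ^ h *
      (tinyB w t D E1 * E w (fun M : κ → Fin h → SignType =>
        (cW (l ^ k * l ^ k) (l ^ k) M : ℝ) ^ 2) +
      Ex w (fun M : κ → Fin h → SignType => (cW (l ^ k * l ^ k) (l ^ k) M : ℝ) ^ 2)
        (Low w (l ^ k * l ^ k) (l ^ k) E1) +
      Ex w (fun M : κ → Fin h → SignType => (cOrd (l ^ k * l ^ k) (l ^ k) M : ℝ))
        (fun M => ¬ Low w (l ^ k * l ^ k) (l ^ k) E1 M)) := by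
    refine (S1_zero_le (κ := κ) (h := h) hl hl2 hk hD hw hw1 ht hE).trans (le_of_eq ?_)
    congr 2
    unfold Ex
    congr 1
    funext M
    by_cases hM : Low w (l ^ k * l ^ k) (l ^ k) E1 M
    · rw [if_pos hM, if_neg (not_not.2 hM)]
    · rw [if_neg hM, if_pos hM]
  refine h1.trans ?_
  rw [mul_comm]
  push_cast
  refine mul_le_mul_of_nonneg_right (add_le_add (add_le_add (le_trans ?_ hb) hAL) hAO)
    (by positivity)
  exact mul_le_mul_of_nonneg_left hA2 (tinyB_pos w t D E1).le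

end Bounds

/-- Bound for `S1` with one more column, `lam = 0`. -/
theorem S1_snoc_zero_bound [NeZero (l ^ k)] (hl : l.Prime) (hk : 1 ≤ k) {m D : ℕ}
    (hD : 1 ≤ D) {w t E1 E2 Qs tau : ℝ} (hw : 0 < w) (hw1 : w ≤ 1) (ht : 0 ≤ t)
    (h12 : (l : ℝ) ^ 2 * E2 ≤ E1) (hE2 : E2 < (D : ℝ) * (8 * w / (l : ℝ) ^ 2))
    (hQ : (l : ℝ) ^ k ≤ Qs) (htau : tau ≤ 1) {A AN AB : ℝ}
    (hA : S1 (Fin m) h w t D (0 : ZMod (l ^ k)) ≤ A * ((l ^ k : ℕ) : ℝ) ^ h)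
    (hAN : Ex w (fun M : Fin m → Fin h → SignType =>
      (cW (l ^ k * l ^ k) (l ^ k) M : ℝ) ^ 2) (NN w (l ^ k * l ^ k) l D E1) ≤ AN)
    (hAB : Ex w (fun M : Fin m → Fin h → SignType =>
      (cW (l ^ k * l ^ k) (l ^ k) M : ℝ) ^ 2) (Bad w (l ^ k * l ^ k) E2 Qs tau) ≤ AB) :
    S1 (Fin (m + 1)) h w t D (0 : ZMod (l ^ k)) ≤
      (2 * A + ((l ^ k : ℕ) : ℝ) * (AN + AB)) * ((l ^ k : ℕ) : ℝ) ^ h / ((l ^ k : ℕ) : ℝ) := by
  have h1 : S1 (Fin (m + 1)) h w t D (0 : ZMod (l ^ k)) ≤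
      2 / (l : ℝ) ^ k * S1 (Fin m) h w t D (0 : ZMod (l ^ k)) + ((l : ℝ) ^ k) ^ h *
      (Ex w (fun M : Fin m → Fin h → SignType => (cW (l ^ k * l ^ k) (l ^ k) M : ℝ) ^ 2)
        (NN w (l ^ k * l ^ k) l D E1) +
      Ex w (fun M : Fin m → Fin h → SignType => (cW (l ^ k * l ^ k) (l ^ k) M : ℝ) ^ 2)
        (Bad w (l ^ k * l ^ k) E2 Qs tau)) :=
    S1_snoc_zero_le (h := h) (m := m) hl hk hD hw hw1 ht h12 hE2 hQ htau
  have hl0 : (0 : ℝ) < (l : ℝ) := by exact_mod_cast hl.pos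
  have hq : (0 : ℝ) < ((l ^ k : ℕ) : ℝ) := by
    push_cast
    positivity
  rw [le_div_iff₀ hq]
  have e1 : (l : ℝ) ^ k = ((l ^ k : ℕ) : ℝ) := by push_cast; ring
  rw [e1] at h1
  obtain ⟨q, hq'⟩ : ∃ q : ℝ, q = ((l ^ k : ℕ) : ℝ) := ⟨_, rfl⟩
  rw [← hq'] at h1 hA hq ⊢
  have h2 : 2 / q * S1 (Fin m) h w t D (0 : ZMod (l ^ k)) * q ≤ 2 * A * q ^ h := by
    have h3 : 2 / q * S1 (Fin m) h w t D (0 : ZMod (l ^ k)) * q =
        2 * S1 (Fin m) h w t D (0 : ZMod (l ^ k)) := by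
      field_simp
    rw [h3]
    linarith
  have h4 : q ^ h * (Ex w (fun M : Fin m → Fin h → SignType =>
      (cW (l ^ k * l ^ k) (l ^ k) M : ℝ) ^ 2) (NN w (l ^ k * l ^ k) l D E1) +
      Ex w (fun M : Fin m → Fin h → SignType =>
      (cW (l ^ k * l ^ k) (l ^ k) M : ℝ) ^ 2) (Bad w (l ^ k * l ^ k) E2 Qs tau)) ≤
      q ^ h * (AN + AB) :=
    mul_le_mul_of_nonneg_left (add_le_add hAN hAB) (by positivity)
  have h5 := mul_le_mul_of_nonneg_right (h1.trans (add_le_add le_rfl h4)) hq.le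
  rw [add_mul] at h5
  linarith

open Classical in
/-- The passage in the form used by the end game. -/
private theorem passage_split (n : ℕ) (l K : ℕ) [NeZero (l ^ K)] (hl : l.Prime) (hK : K ≠ 0)
    (S : (Fin n → ZMod l) → Prop)
    (hS : ∀ (c : (ZMod l)ˣ) (v : Fin n → ZMod l), S v → S fun i => (c : ZMod l) * v i) :
    ∃ N : ℝ, 0 ≤ N ∧
      (Nat.card {G : SimpleGraph (Fin n) // (G.adjMatrix ℝ).det = 0} : ℝ) ≤
      Nat.card {G : SimpleGraph (Fin n) // ∃ v : Fin n → ZMod l, v ≠ 0 ∧ ¬ S v ∧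
        (G.adjMatrix (ZMod l)) *ᵥ v = 0} + N ∧
      ((l ^ K).totient : ℝ) * ((l ^ K : ℕ) : ℝ) ^ (2 * n + 1) * N =
        Nat.card (SimpleGraph (Fin n)) * ∑ lam : ZMod (l ^ K),
          linkSumS n (l ^ K) (fun v => S fun i => redl l K hK (v i)) 1 lam := by
  have h1 := passage_graph_prime (n := n) l K hl hK S hS
  have h5 : 0 < (l ^ K).totient := Nat.totient_pos.2 (Nat.pos_of_ne_zero (NeZero.ne _))
  have h6 : (0 : ℝ) < ((l ^ K).totient : ℝ) := by exact_mod_cast h5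
  have h7 : (0 : ℝ) < ((l ^ K : ℕ) : ℝ) := by
    exact_mod_cast Nat.pos_of_ne_zero (NeZero.ne (l ^ K))
  have hc0 : 0 < ((l ^ K).totient : ℝ) * ((l ^ K : ℕ) : ℝ) ^ (2 * n + 1) := by positivity
  refine ⟨_, ?_, h1, ?_⟩
  · refine mul_nonneg (Nat.cast_nonneg _) (mul_nonneg (inv_nonneg.2 hc0.le) ?_)
    exact Finset.sum_nonneg fun lam _ => linkSumS_nonneg _ _ _ _
  · field_simp

open Classical in
/-- **Even size.** -/
theorem graphs_even {h l k D : ℕ} [NeZero (l ^ k)] (hl : l.Prime) (hl2 : l ≠ 2) (hk : k ≠ 0)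
    (hD : 1 ≤ D) {w t E1 : ℝ} (hw : 0 < w) (hw1 : w ≤ 1) (ht : 0 ≤ t) (hE : 2 * w ≤ E1)
    (S : (Fin (2 * h) → ZMod l) → Prop)
    (hS : ∀ (c : (ZMod l)ˣ) (v : Fin (2 * h) → ZMod l), S v → S fun i => (c : ZMod l) * v i)
    (hP2 : ∀ lam : ZMod (l ^ k),
      linkSumS (2 * h) (l ^ k) (fun v => S fun i => redl l k hk (v i)) 1 lam ≤
        2 * ((l ^ k : ℕ) : ℝ) ^ (3 * h) * S1 (Fin h) h w t D lam)
    {A2 AL AO AN b : ℝ}
    (hA2 : E w (fun M : Fin h → Fin h → SignType =>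
      (cW (l ^ k * l ^ k) (l ^ k) M : ℝ) ^ 2) ≤ A2)
    (hAL : Ex w (fun M : Fin h → Fin h → SignType =>
      (cW (l ^ k * l ^ k) (l ^ k) M : ℝ) ^ 2) (Low w (l ^ k * l ^ k) (l ^ k) E1) ≤ AL)
    (hAO : Ex w (fun M : Fin h → Fin h → SignType => (cOrd (l ^ k * l ^ k) (l ^ k) M : ℝ))
      (fun M => ¬ Low w (l ^ k * l ^ k) (l ^ k) E1 M) ≤ AO)
    (hAN : Ex w (fun M : Fin h → Fin h → SignType =>
      (cW (l ^ k * l ^ k) (l ^ k) M : ℝ) ^ 2) (NN w (l ^ k * l ^ k) l D E1) ≤ AN)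
    (hb : tinyB w t D E1 * A2 ≤ b) (hbN : 0 ≤ b + AN)
    (hq : ((l ^ k : ℕ) : ℝ) * (b + AN) ≤ 1) :
    (Nat.card {G : SimpleGraph (Fin (2 * h)) // (G.adjMatrix ℝ).det = 0} : ℝ) ≤
      Nat.card {G : SimpleGraph (Fin (2 * h)) // ∃ v : Fin (2 * h) → ZMod l, v ≠ 0 ∧ ¬ S v ∧
        (G.adjMatrix (ZMod l)) *ᵥ v = 0} +
      4 * (b + AL + AO + 1) / (((l ^ k : ℕ) : ℝ)) ^ 2 * Nat.card (SimpleGraph (Fin (2 * h))) := by
  obtain ⟨N, hN0, hN1, hN2⟩ := passage_split (2 * h) l k hl hk S hS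
  have hG : (0 : ℝ) ≤ Nat.card (SimpleGraph (Fin (2 * h))) := Nat.cast_nonneg _
  refine hN1.trans (add_le_add le_rfl ?_)
  refine endGame_even (h := h) (S := fun lam => S1 (Fin h) h w t D lam) (τ := b + AN)
    (endGame_totient hl (Nat.one_le_iff_ne_zero.2 hk)) hN0 hG ?_
    (S1_zero_bound hl hl2 (Nat.one_le_iff_ne_zero.2 hk) hD hw hw1 ht hE hA2 hAL hAO hb)
    (fun lam hlam => S1_bound hl hl2 (Nat.one_le_iff_ne_zero.2 hk) hD hlam hw hw1 ht hE hA2 hAN hb)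
    hbN hq
  rw [hN2, mul_assoc]
  refine mul_le_mul_of_nonneg_left ?_ hG
  rw [Finset.mul_sum]
  refine Finset.sum_le_sum fun lam _ => ?_
  rw [← mul_assoc]
  exact hP2 lam

open Classical in
/-- **Odd size.** -/
theorem graphs_odd {h l k D : ℕ} [NeZero (l ^ k)] (hl : l.Prime) (hl2 : l ≠ 2) (hk : k ≠ 0)
    (hD : 1 ≤ D) {w t E1 E2 Qs tau : ℝ} (hw : 0 < w) (hw1 : w ≤ 1) (ht : 0 ≤ t)
    (hE : 2 * w ≤ E1) (h12 : (l : ℝ) ^ 2 * E2 ≤ E1)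
    (hE2 : E2 < (D : ℝ) * (8 * w / (l : ℝ) ^ 2)) (hQ : (l : ℝ) ^ k ≤ Qs) (htau : tau ≤ 1)
    (S : (Fin (2 * h + 1) → ZMod l) → Prop)
    (hS : ∀ (c : (ZMod l)ˣ) (v : Fin (2 * h + 1) → ZMod l), S v → S fun i => (c : ZMod l) * v i)
    (hP2 : ∀ lam : ZMod (l ^ k),
      linkSumS (2 * h + 1) (l ^ k) (fun v => S fun i => redl l k hk (v i)) 1 lam ≤
        2 * ((l ^ k : ℕ) : ℝ) ^ (3 * (h + 1)) * S1 (Fin (h + 1)) h w t D lam)
    {A2 AL AO AN AB b : ℝ}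
    (hA2 : E w (fun M : Fin h → Fin h → SignType =>
      (cW (l ^ k * l ^ k) (l ^ k) M : ℝ) ^ 2) ≤ A2)
    (hAL : Ex w (fun M : Fin h → Fin h → SignType =>
      (cW (l ^ k * l ^ k) (l ^ k) M : ℝ) ^ 2) (Low w (l ^ k * l ^ k) (l ^ k) E1) ≤ AL)
    (hAO : Ex w (fun M : Fin h → Fin h → SignType => (cOrd (l ^ k * l ^ k) (l ^ k) M : ℝ))
      (fun M => ¬ Low w (l ^ k * l ^ k) (l ^ k) E1 M) ≤ AO)
    (hAN : Ex w (fun M : Fin h → Fin h → SignType =>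
      (cW (l ^ k * l ^ k) (l ^ k) M : ℝ) ^ 2) (NN w (l ^ k * l ^ k) l D E1) ≤ AN)
    (hAB : Ex w (fun M : Fin h → Fin h → SignType =>
      (cW (l ^ k * l ^ k) (l ^ k) M : ℝ) ^ 2) (Bad w (l ^ k * l ^ k) E2 Qs tau) ≤ AB)
    (hb : tinyB w t D E1 * A2 ≤ b) (hbN : 0 ≤ b + AN)
    (hq : ((l ^ k : ℕ) : ℝ) ^ 2 * (b + AN) ≤ 1) (hq2 : ((l ^ k : ℕ) : ℝ) * (AN + AB) ≤ 1) :
    (Nat.card {G : SimpleGraph (Fin (2 * h + 1)) // (G.adjMatrix ℝ).det = 0} : ℝ) ≤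
      Nat.card {G : SimpleGraph (Fin (2 * h + 1)) // ∃ v : Fin (2 * h + 1) → ZMod l, v ≠ 0 ∧
        ¬ S v ∧ (G.adjMatrix (ZMod l)) *ᵥ v = 0} +
      4 * (2 * (b + AL + AO) + 1 + 1) / (((l ^ k : ℕ) : ℝ)) ^ 2 *
        Nat.card (SimpleGraph (Fin (2 * h + 1))) := by
  obtain ⟨N, hN0, hN1, hN2⟩ := passage_split (2 * h + 1) l k hl hk S hS
  have hk1 : 1 ≤ k := Nat.one_le_iff_ne_zero.2 hk
  have hG : (0 : ℝ) ≤ Nat.card (SimpleGraph (Fin (2 * h + 1))) := Nat.cast_nonneg _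
  refine hN1.trans (add_le_add le_rfl ?_)
  have h0 := S1_snoc_zero_bound (h := h) (m := h) hl hk1 hD hw hw1 ht h12 hE2 hQ htau
    (S1_zero_bound hl hl2 hk1 hD hw hw1 ht hE hA2 hAL hAO hb) hAN hAB
  refine endGame_odd (h := h) (S := fun lam => S1 (Fin (h + 1)) h w t D lam) (τ := b + AN)
    (endGame_totient hl hk1) hN0 hG ?_ (h0.trans ?_) (fun lam hlam => ?_) hbN hq
  · rw [hN2, mul_assoc]
    refine mul_le_mul_of_nonneg_left ?_ hG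
    rw [Finset.mul_sum]
    refine Finset.sum_le_sum fun lam _ => ?_
    rw [← mul_assoc]
    exact hP2 lam
  · refine div_le_div_of_nonneg_right ?_ (Nat.cast_nonneg _)
    refine mul_le_mul_of_nonneg_right ?_ (by positivity)
    linarith
  · refine (S1_snoc_le (h := h) (m := h) D lam hw.le hw1).trans ?_
    exact S1_bound hl hl2 hk1 hD hlam hw hw1 ht hE hA2 hAN hb

end SymSing
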