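import Mathlib
import Pool.Agent.Lib.SymSing.AmGm
import Pool.Agent.Lib.SymSing.PassageS
import Pool.Agent.Lib.SymSing.SolSum

/-!
# From the graphs to the independent columns

Section 1 of the proof for MP_686cbb_pr: `linkSumS` (passage) against `S1` (independent lazy
columns), `section1_even` and `section1_odd`.
-/

set_option autoImplicit false

namespace SymSing

open Finset Matrix
open Pool.Agent.Lib.SymSing.Law
open Pool.Agent.Lib.SymSing.Duality (lazyKer lazyS sum_lazyS_char)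

/-! ### The kernels -/

private theorem cosZ_sq {N : ℕ} (x : ZMod N) :
    cosZ x ^ 2 = (1 + Real.cos (2 * Real.pi * x.val / N)) / 2 := by
  unfold cosZ
  rw [sq_abs, Real.cos_sq]
  have e : 2 * (Real.pi * (x.val : ℝ) / N) = 2 * Real.pi * x.val / N := by ring
  rw [e]
  ring

/-- Concavity. -/
theorem cosZ_rpow_le_lazyKer {N : ℕ} {w : ℝ} (hw : 0 ≤ w) (hw2 : w ≤ 1 / 2) (x : ZMod N) :
    cosZ x ^ (4 * w) ≤ lazyKer w x := by
  have h0 := cosZ_nonneg x
  have e : cosZ x ^ (4 * w) = (cosZ x ^ 2) ^ (2 * w) := by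
    rw [← Real.rpow_natCast (cosZ x) 2, ← Real.rpow_mul h0]
    congr 1
    push_cast
    ring
  have h1 := Real.geom_mean_le_arith_mean2_weighted (w₁ := 2 * w) (w₂ := 1 - 2 * w)
    (p₁ := cosZ x ^ 2) (p₂ := 1) (by linarith) (by linarith) (by positivity) zero_le_one (by ring)
  rw [Real.one_rpow, mul_one, mul_one] at h1
  rw [e]
  refine h1.trans (le_of_eq ?_)
  rw [cosZ_sq]
  unfold lazyKer
  ring

/-- The exponential bound. -/
theorem cosZ_rpow_le_exp {N : ℕ} {w t : ℝ} (hw : 0 < w) (ht : 0 ≤ t) (x : ZMod N) :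
    cosZ x ^ t ≤ Real.exp (-(t / (4 * w)) * (1 - lazyKer w x)) := by
  have h0 := cosZ_nonneg x
  have e : cosZ x ^ t = (cosZ x ^ 2) ^ (t / 2) := by
    rw [← Real.rpow_natCast (cosZ x) 2, ← Real.rpow_mul h0]
    congr 1
    push_cast
    ring
  have h1 : cosZ x ^ 2 ≤ Real.exp (-(1 - cosZ x ^ 2)) := by
    have := Real.add_one_le_exp (-(1 - cosZ x ^ 2))
    linarith
  rw [e]
  refine (Real.rpow_le_rpow (by positivity) h1 (by positivity)).trans (le_of_eq ?_)
  rw [← Real.exp_mul]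
  congr 1
  rw [cosZ_sq]
  unfold lazyKer
  field_simp
  ring

/-- Units modulo `l ^ k * l ^ k`. -/
theorem isUnit_iff_redl {l k : ℕ} [NeZero (l ^ k)] (hl : l.Prime) (hk : k ≠ 0)
    (y : ZMod (l ^ k * l ^ k)) : IsUnit y ↔ redl l k hk (red (l ^ k) y) ≠ 0 := by
  have h1 : y = ((y.val : ℕ) : ZMod (l ^ k * l ^ k)) := (ZMod.natCast_zmod_val y).symm
  have h2 : redl l k hk (red (l ^ k) y) = ((y.val : ℕ) : ZMod l) := by
    conv_lhs => rw [h1]
    rw [red_natCast]
    have h3 := redl_intCast l k hk ((y.val : ℕ) : ℤ)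
    push_cast at h3
    exact_mod_cast h3
  rw [h2, Ne, ZMod.natCast_eq_zero_iff]
  conv_lhs => rw [h1]
  rw [ZMod.isUnit_iff_coprime, Nat.coprime_mul_iff_right, and_self,
    Nat.coprime_pow_right_iff (Nat.pos_of_ne_zero hk), Nat.coprime_comm,
    hl.coprime_iff_not_dvd]

/-! ### The sum over the columns -/

section Columns

variable {h q : ℕ} [NeZero q]

/-- The kernel of a pair. -/
private noncomputable def gpair {N : ℕ} (y z : ZMod N × ZMod N) : ℝ :=
  cosZ (y.1 * z.2 + z.1 * y.2)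

private theorem gpair_symm {N : ℕ} (y z : ZMod N × ZMod N) : gpair y z = gpair z y := by
  unfold gpair
  rw [add_comm]

private theorem linkSumS_le {n : ℕ} (S : (Fin n → ZMod q) → Prop) (lam : ZMod q)
    (T : (Fin n → ZMod (q * q) × ZMod (q * q)) → Prop) [DecidablePred T]
    (hT : ∀ z, S (fun i => red q (z i).2) → T z) :
    linkSumS n q S 1 lam ≤ ∑ z ∈ (Fintype.piFinset fun _ : Fin n => lamPairs q lam).filter T,
      ∏ p ∈ ltPairs n, gpair (z p.1) (z p.2) := by
  classical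
  unfold linkSumS
  have h1 : Set.InjOn (fun (z : (Fin n → ZMod (q * q)) × (Fin n → ZMod (q * q))) =>
      fun i => (z.1 i, z.2 i))
      ((linkSet n q lam).filter (fun z => S fun i => red q (z.2 i)) :
        Set ((Fin n → ZMod (q * q)) × (Fin n → ZMod (q * q)))) := by
    intro z _ z' _ hzz
    refine Prod.ext (funext fun i => ?_) (funext fun i => ?_)
    · exact congrArg Prod.fst (congrFun hzz i)
    · exact congrArg Prod.snd (congrFun hzz i)
  have h2 : ∑ z ∈ (linkSet n q lam).filter (fun z => S fun i => red q (z.2 i)),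
      ∏ p ∈ ltPairs n, cosZ (((1 : ℤ) : ZMod (q * q)) * pairB z.1 z.2 p.1 p.2) =
      ∑ z ∈ ((linkSet n q lam).filter (fun z => S fun i => red q (z.2 i))).image
        (fun z => fun i => (z.1 i, z.2 i)), ∏ p ∈ ltPairs n, gpair (z p.1) (z p.2) := by
    rw [Finset.sum_image h1]
    refine Finset.sum_congr rfl fun z _ => Finset.prod_congr rfl fun p _ => ?_
    rw [Int.cast_one, one_mul]
    rfl
  rw [h2]
  refine Finset.sum_le_sum_of_subset_of_nonneg ?_ fun z _ _ =>
    Finset.prod_nonneg fun p _ => cosZ_nonneg _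
  intro z hz
  obtain ⟨z', hz', rfl⟩ := Finset.mem_image.1 hz
  rw [Finset.mem_filter, mem_linkSet] at hz'
  rw [Finset.mem_filter, Fintype.mem_piFinset]
  exact ⟨fun i => mem_lamPairs.2 (hz'.1.1 i), hT _ hz'.2⟩

open Classical in
private theorem sum_x_le {m D : ℕ} {w t : ℝ} (hw : 0 < w) (hw2 : w ≤ 1 / 2) (ht : 0 ≤ t)
    (lam : ZMod q) (U : ZMod (q * q) × ZMod (q * q) → Prop) [DecidablePred U]
    (hU : ∀ y, U y ↔ IsUnit y.2) :
    ∑ x ∈ (Fintype.piFinset fun _ : Fin h => lamPairs q lam).filter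
      (fun x => D ≤ (univ.filter fun a => U (x a)).card),
      (∏ p ∈ ltPairs h, gpair (x p.1) (x p.2) ^ t) *
        (∑ y ∈ lamPairs q lam, ∏ a, gpair (x a) y ^ (4 * w)) ^ m ≤
      (q : ℝ) ^ (3 * m) * S1 (Fin m) h w t D lam := by
  have h1 : ∀ x : Fin h → ZMod (q * q) × ZMod (q * q),
      (∏ p ∈ ltPairs h, gpair (x p.1) (x p.2) ^ t) *
        (∑ y ∈ lamPairs q lam, ∏ a, gpair (x a) y ^ (4 * w)) ^ m ≤
      aLam w t (fun a => (x a).1, fun a => (x a).2) * ((q : ℝ) ^ (3 * m) *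
        ∑ M : Fin m → Fin h → SignType, (∏ j, ∏ a, lazyS w (M j a)) *
        (if ∀ j, LamKill lam (fun a => (x a).1) (fun a => (x a).2)
          (fun a => (((M j a : SignType) : ℤ) : ZMod (q * q))) then 1 else 0)) := by
    intro x
    have h2 := lamFacts_sum_pow (q := q) (h := h) (fun s : SignType => (s : ℤ)) (lazyS w)
      (lazyKer w) (fun s => by
        rw [← sum_lazyS_char w s]
        refine Finset.sum_congr rfl fun e _ => ?_
        have e2 : s * ((e : SignType) : ZMod (q * q)) =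
            (((e : SignType) : ℤ) : ZMod (q * q)) * s := by
          rw [mul_comm s]
          cases e <;> simp
        rw [e2]) lam (fun a => (x a).1) (fun a => (x a).2) m
    rw [← h2]
    refine mul_le_mul ?_ ?_ ?_ (aLam_pos w t _).le
    · unfold aLam
      rw [Finset.mul_sum, Real.exp_sum]
      refine Finset.prod_le_prod (fun p _ => Real.rpow_nonneg (cosZ_nonneg _) _) fun p _ => ?_
      exact cosZ_rpow_le_exp hw ht _
    · refine pow_le_pow_left₀ (Finset.sum_nonneg fun y _ => Finset.prod_nonneg fun a _ =>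
        Real.rpow_nonneg (cosZ_nonneg _) _) ?_ m
      refine Finset.sum_le_sum fun y _ => Finset.prod_le_prod
        (fun a _ => Real.rpow_nonneg (cosZ_nonneg _) _) fun a _ => ?_
      exact cosZ_rpow_le_lazyKer hw.le hw2 _
    · exact pow_nonneg (Finset.sum_nonneg fun y _ => Finset.prod_nonneg fun a _ =>
        Real.rpow_nonneg (cosZ_nonneg _) _) m
  refine (Finset.sum_le_sum fun x _ => h1 x).trans (le_of_eq ?_)
  unfold S1 E ex
  have h3 : ∀ M : Fin m → Fin h → SignType, ∑ x ∈ lamSol D lam (cols (q * q) M), aLam w t x =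
      ∑ x ∈ (Fintype.piFinset fun _ : Fin h => lamPairs q lam).filter
        (fun x => D ≤ (univ.filter fun a => U (x a)).card),
        aLam w t (fun a => (x a).1, fun a => (x a).2) *
        (if ∀ j, LamKill lam (fun a => (x a).1) (fun a => (x a).2)
          (fun a => (((M j a : SignType) : ℤ) : ZMod (q * q))) then 1 else 0) := by
    intro M
    simp only [mul_ite, mul_one, mul_zero]
    rw [← Finset.sum_filter]
    symm
    refine Finset.sum_equiv (Equiv.arrowProdEquivProdArrow (Fin h) (fun _ => ZMod (q * q))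
      (fun _ => ZMod (q * q))) ?_ ?_
    · intro x
      rw [Finset.mem_filter, Finset.mem_filter, Fintype.mem_piFinset, mem_lamSol]
      have h4 : (univ.filter fun a => U (x a)) = unitSet (fun a => (x a).2) := by
        ext a
        rw [mem_unitSet, Finset.mem_filter, hU]
        simp
      rw [h4]
      have h5 : ∀ j, (fun a => (((M j a : SignType) : ℤ) : ZMod (q * q))) = cols (q * q) M j := by
        intro j
        funext a
        unfold cols Pool.Agent.Lib.SymSing.Law.vec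
        cases M j a <;> simp
      simp only [h5, mem_lamPairs]
      constructor
      · rintro ⟨⟨h6, h7⟩, h8⟩
        exact ⟨h6, h7, h8⟩
      · rintro ⟨h6, h7, h8⟩
        exact ⟨⟨h6, h7⟩, h8⟩
    · intro x _
      rfl
  simp only [h3, matW_eq]
  rw [Finset.mul_sum]
  simp only [Finset.mul_sum]
  rw [Finset.sum_comm]
  refine Finset.sum_congr rfl fun M _ => Finset.sum_congr rfl fun x _ => ?_
  ring

end Columns

/-! ### Section 1 -/

private theorem section1_aux {t : ℝ} (ht : 0 < t) (ht1 : t ≤ 1 / 2) {n h m : ℕ} (hn : n = h + m)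
    (hm : m = h ∨ m = h + 1) (hh : 3 ≤ 2 * t * h) (l k D : ℕ) [NeZero (l ^ k)] (hl : l.Prime)
    (hk : k ≠ 0) (lam : ZMod (l ^ k))
    (S : (Fin n → ZMod (l ^ k)) → Prop)
    (hS : ∀ v, S v → 2 * D < (univ.filter fun i => redl l k hk (v i) ≠ 0).card) :
    linkSumS n (l ^ k) S 1 lam ≤
      2 * ((l ^ k : ℕ) : ℝ) ^ (3 * m) * S1 (Fin m) h ((2 - 3 * t) / 4) t D lam := by
  classical
  set U : ZMod (l ^ k * l ^ k) × ZMod (l ^ k * l ^ k) → Prop :=
    fun y => redl l k hk (red (l ^ k) y.2) ≠ 0 with hU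
  refine (linkSumS_le S lam (fun z => 2 * D < (univ.filter fun i => U (z i)).card)
    (fun z hz => hS _ hz)).trans ?_
  refine (amgm_sum gpair gpair_symm (fun _ _ => cosZ_nonneg _) (fun _ _ => cosZ_le_one _)
    (lamPairs (l ^ k) lam) U (D := D) hn hm ht ht1 hh).trans ?_
  rw [mul_assoc]
  refine mul_le_mul_of_nonneg_left ?_ (by norm_num)
  have h1 := sum_x_le (h := h) (q := l ^ k) (m := m) (D := D) (w := (2 - 3 * t) / 4) (t := t)
    (by linarith) (by linarith) ht.le lam U (fun y => (isUnit_iff_redl hl hk y.2).symm)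
  have e : 4 * ((2 - 3 * t) / 4) = 2 - 3 * t := by ring
  rw [e] at h1
  exact h1

open Classical in
/-- **Section 1, `n = 2 h`.** -/
theorem section1_even {t : ℝ} (ht : 0 < t) (ht1 : t ≤ 1 / 2) : ∃ h0 : ℕ, ∀ h ≥ h0,
    ∀ (l k D : ℕ) [NeZero (l ^ k)] (_ : l.Prime) (_ : l ≠ 2) (hk : k ≠ 0) (lam : ZMod (l ^ k)),
    linkSumS (2 * h) (l ^ k) (fun v => 2 * D < #{i | redl l k hk (v i) ≠ 0}) 1 lam ≤
      2 * ((l ^ k : ℕ) : ℝ) ^ (3 * h) * S1 (Fin h) h ((2 - 3 * t) / 4) t D lam := by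
  obtain ⟨h0, hh0⟩ := exists_nat_ge (3 / (2 * t))
  refine ⟨h0, fun h hh l k D _ hl _ hk lam => ?_⟩
  refine section1_aux ht ht1 (by omega) (Or.inl rfl) ?_ l k D hl hk lam _ ?_
  · have h1 : 3 / (2 * t) ≤ (h : ℝ) := hh0.trans (by exact_mod_cast hh)
    rw [div_le_iff₀ (by positivity)] at h1
    linarith
  · intro v hv
    convert hv

open Classical in
/-- **Section 1, `n = 2 h + 1`.** -/
theorem section1_odd {t : ℝ} (ht : 0 < t) (ht1 : t ≤ 1 / 2) : ∃ h0 : ℕ, ∀ h ≥ h0,
    ∀ (l k D : ℕ) [NeZero (l ^ k)] (_ : l.Prime) (_ : l ≠ 2) (hk : k ≠ 0) (lam : ZMod (l ^ k)),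
    linkSumS (2 * h + 1) (l ^ k) (fun v => 2 * D < #{i | redl l k hk (v i) ≠ 0}) 1 lam ≤
      2 * ((l ^ k : ℕ) : ℝ) ^ (3 * (h + 1)) *
        S1 (Fin (h + 1)) h ((2 - 3 * t) / 4) t D lam := by
  obtain ⟨h0, hh0⟩ := exists_nat_ge (3 / (2 * t))
  refine ⟨h0, fun h hh l k D _ hl _ hk lam => ?_⟩
  refine section1_aux ht ht1 (by omega) (Or.inr rfl) ?_ l k D hl hk lam _ ?_
  · have h1 : 3 / (2 * t) ≤ (h : ℝ) := hh0.trans (by exact_mod_cast hh)
    rw [div_le_iff₀ (by positivity)] at h1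
    linarith
  · intro v hv
    convert hv

end SymSing
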