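import Mathlib
import Pool.Agent.Lib.SymSing.FinalStep
import Pool.Agent.Lib.SymSing.BadMoment
import Pool.Agent.Lib.SymSing.Sec7Asym
import Pool.Agent.Lib.SymSing.Sec6Iface
import Pool.Agent.Lib.SymSing.Section1
import Pool.Agent.Lib.SymSing.MomentR

/-!
# The final statement, from the interface statements

`main_of`: for every `ε > 0` and all large `n`, the proportion of graphs on `n` vertices with
singular adjacency matrix is at most `(1 / √2 + ε) ^ n`, if the sparse bound (P1b) and the bound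
for the bad event (P5) hold.
-/

set_option autoImplicit false

namespace Pool.Agent.Lib.SymSing.MainOf

open Finset Matrix Pool.Agent.Lib.SymSing.Law Pool.Agent.Lib.SymSing.Duality
open Pool.Agent.Lib.SymSing.Ev Pool.Agent.Lib.SymSing.CaseSum _root_.SymSing
open Pool.Agent.Lib.SymSing.Params Pool.Agent.Lib.SymSing.Final
open scoped Classical

noncomputable section

/-- **Singularity probability of `G(n, 1 / 2)`**, from the interface statements. -/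
theorem main_of
    (hsp : ∀ l : ℕ, l.Prime → ∀ e : ℝ, 0 < e → ∃ δ : ℝ, 0 < δ ∧ ∃ n0 : ℕ, ∀ n ≥ n0,
      ∀ D : ℕ, (D : ℝ) ≤ δ * n →
      (Nat.card {G : SimpleGraph (Fin n) // ∃ v : Fin n → ZMod l, v ≠ 0 ∧
        ¬ (D < #{i | v i ≠ 0}) ∧ (G.adjMatrix (ZMod l)) *ᵥ v = 0} : ℝ) ≤
        Nat.card (SimpleGraph (Fin n)) * (2 : ℝ) ^ (-(1 - e) * n))
    (hB : ∀ w e : ℝ, 0 < w → w ≤ 1 / 2 → 0 < e → e ≤ 1 → ∀ c2 : ℝ, 0 < c2 → ∀ l : ℕ, l.Prime →
      ∃ c5 : ℝ, 0 < c5 ∧ ∃ h0 : ℕ, ∀ h ≥ h0, ∀ h' ≤ h, (1 - e / 16) * h ≤ h' →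
      ∀ (k N : ℕ) [NeZero N], N = l ^ (2 * k) →
      (N : ℝ) ≤ Real.exp ((1 - e) * (-Real.log (1 - w)) * h) →
      P w (fun M : Fin h → Fin h' → SignType => Bad w N (c2 * h)
        (Real.exp ((1 - e / 2) * (-Real.log (1 - w)) * h)) (((h : ℝ) ^ 3)⁻¹) M) ≤
        Real.exp (-(c5 * (h : ℝ) ^ 2))) :
    ∀ ε : ℝ, 0 < ε → ∃ n0 : ℕ, ∀ n ≥ n0,
      (Nat.card {G : SimpleGraph (Fin n) // (G.adjMatrix ℝ).det = 0} : ℝ) /
        Nat.card (SimpleGraph (Fin n)) ≤ (1 / √2 + ε) ^ n := by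
  refine final_of_inputs (e0 := 1 / 20) (by norm_num) (by norm_num) fun e he hee => ?_
  obtain ⟨l, hl, hl2, hc⟩ := exists_par he hee
  obtain ⟨δ0, hδ0, n0, hsp'⟩ := hsp l hl e he
  obtain ⟨c1, hp⟩ := hc (δ0 / 2) (by positivity)
  have hwt : (2 - 3 * (e / 10)) / 4 = 1 / 2 - 3 * e / 40 := by ring
  have ht : 0 < e / 10 := by positivity
  have hl0 : (0 : ℝ) < (l : ℝ) ^ 2 := by
    have := hp.l_pos
    positivity
  have he1 : e ≤ 1 := by linarith
  have hM' : ∀ δ : ℝ, 0 < δ → ∃ h0 : ℕ, ∀ h ≥ h0, ∀ h' ≤ h, ∀ (N q : ℕ) [NeZero N], q ∣ N →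
      (q : ℝ) ^ (2 + e / 2) ≤ Real.exp (-Real.log (1 - (1 / 2 - 3 * e / 40)) * h) →
      E (1 / 2 - 3 * e / 40) (fun M : Fin h → Fin h' → SignType =>
        (cW N q M : ℝ) ^ (2 + e / 2)) ≤ Real.exp (δ * (h : ℝ) ^ 2) :=
    fun δ hδ => MomentR.moment_bound hp.w_pos hp.w_le he he1 hδ
  have hB' := hB _ e hp.w_pos hp.w_le he he1 _ (div_pos hp.hc1 hl0) l hl
  have hbad := BadMoment.bad_field (c2 := c1 / (l : ℝ) ^ 2) (l := l) hp.w_pos hp.w_le he
    (fun c hc => MomentR.moment_event hp.w_pos hp.w_le he he1 hc) hB'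
  refine ⟨l, δ0 / 2, c1, hl, hl2, by positivity, hp.hc1, hp.hns, ?_⟩
  refine ⟨⟨n0, fun n hn D hD => hsp' n hn D (by linarith)⟩, ?_, ?_,
    BadMoment.moment_field hp.w_pos hp.w_le he hM', hbad, Sec6.sec6_field hp hM' hB',
    Sec7.sec7_of hp hbad (Sec6.sec6_moment hp hM' hB')⟩
  · obtain ⟨h0, H⟩ := section1_even ht (show e / 10 ≤ 1 / 2 by linarith)
    refine ⟨h0, fun h hh k D _ hk lam => ?_⟩
    have := H h hh l k D hl hl2 hk lam
    rw [hwt] at this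
    exact this
  · obtain ⟨h0, H⟩ := section1_odd ht (show e / 10 ≤ 1 / 2 by linarith)
    refine ⟨h0, fun h hh k D _ hk lam => ?_⟩
    have := H h hh l k D hl hl2 hk lam
    rw [hwt] at this
    exact this

end

end Pool.Agent.Lib.SymSing.MainOf
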