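import Pool.Agent.Lib.SymSing.MainOf
import Pool.Agent.Lib.SymSing.SparseKer
import Pool.Agent.Lib.SymSing.BadProb

/-!
# The adjacency matrix of `G(n,1/2)` is singular with probability at most `(1/√2 + o(1))^n`

A weaker form (with a proof of its own) of the theorem in `Results/MP_686cbb_pr/SharpRate.lean`.
-/

set_option autoImplicit false
open scoped Classical

namespace Pool.Agent.Lib.SymSing.SqrtHalfRate

/-- For every `ε > 0` and all large `n`, the fraction of simple graphs on `n` labelled vertices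
whose adjacency matrix has real determinant zero is at most `(1/√2 + ε)^n`. -/
theorem sqrt_half_rate : ∀ ε : ℝ, 0 < ε → ∃ n₀ : ℕ, ∀ n ≥ n₀,
    (Nat.card {G : SimpleGraph (Fin n) // (G.adjMatrix ℝ).det = 0} : ℝ) /
      (Nat.card (SimpleGraph (Fin n)) : ℝ) ≤ (1 / √2 + ε) ^ n :=
  Pool.Agent.Lib.SymSing.MainOf.main_of
    (fun l hl _ he => Pool.Agent.Lib.SymSing.SparseKer.sparse_le l hl he)
    (fun _ _ hw hw2 he he1 _ hc2 _ hl =>
      Pool.Agent.Lib.SymSing.BadProb.prob_bad hw hw2 he he1 hc2 hl)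

end Pool.Agent.Lib.SymSing.SqrtHalfRate
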